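import Pool.Agent.N920.RW.Orders
import Pool.Agent.N920.TW.Asym

/-!
# Exact growth for rank-width and linear rank-width
-/

namespace Pool.Agent.N920.RW

open Finset Real Filter Topology

theorem squeeze2 (F x a b : ℕ → ℝ) (j : ℝ) (hx : ∀ᶠ k in atTop, 0 < x k)
    (ha : Tendsto (fun k => a k / x k) atTop (𝓝 0)) (hb : Tendsto (fun k => b k / x k) atTop (𝓝 0))
    (hup : ∀ᶠ k in atTop, F k ≤ j * x k + a k) (hlow : ∀ᶠ k in atTop, j * x k - b k ≤ F k) :
    Tendsto (fun k => F k / x k) atTop (𝓝 j) := by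
  have h1 : Tendsto (fun k => j - b k / x k) atTop (𝓝 j) := by
    simpa using (tendsto_const_nhds (x := j)).sub hb
  have h2 : Tendsto (fun k => j + a k / x k) atTop (𝓝 j) := by
    simpa using (tendsto_const_nhds (x := j)).add ha
  refine tendsto_of_tendsto_of_tendsto_of_le_of_le' h1 h2 ?_ ?_
  · filter_upwards [hlow, hx] with k hk hpos
    rw [le_div_iff₀ hpos, sub_mul, div_mul_cancel₀ _ hpos.ne']
    exact hk
  · filter_upwards [hup, hx] with k hk hpos
    rw [div_le_iff₀ hpos, add_mul, div_mul_cancel₀ _ hpos.ne']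
    exact hk

theorem log_le_three (z : ℝ) (hz : 0 < z) : log z ≤ 3 * z ^ (1 / 3 : ℝ) := by
  have h1 := log_le_sub_one_of_pos (rpow_pos_of_pos hz (1 / 3 : ℝ))
  rw [log_rpow hz] at h1
  linarith

/-- The product `log k log r / r` tends to zero when `log k log log k / r` does. -/
theorem key_lim (r : ℕ → ℕ) (hr : Tendsto r atTop atTop)
    (h1 : Tendsto (fun k : ℕ => log k * log (log k) / r k) atTop (𝓝 0)) :
    Tendsto (fun k : ℕ => log k * log (r k + 1) / r k) atTop (𝓝 0) := by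
  have hrr : Tendsto (fun k => (r k : ℝ)) atTop atTop := tendsto_natCast_atTop_atTop.comp hr
  have h2 : Tendsto (fun k => 6 * (r k : ℝ) ^ (-(1 / 3 : ℝ))) atTop (𝓝 0) := by
    simpa using ((tendsto_rpow_neg_atTop (show (0 : ℝ) < 1 / 3 by norm_num)).comp hrr).const_mul 6
  have h3 : Tendsto (fun k : ℕ => 3 * (log k * log (log k) / r k) + 6 * (r k : ℝ) ^ (-(1 / 3 : ℝ)))
      atTop (𝓝 0) := by
    simpa using (h1.const_mul 3).add h2
  refine tendsto_of_tendsto_of_tendsto_of_le_of_le' tendsto_const_nhds h3 ?_ ?_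
  · filter_upwards [eventually_ge_atTop 1] with k hk
    have h4 : (1 : ℝ) ≤ k := by exact_mod_cast hk
    have h5 := log_nonneg h4
    have h6 : 0 ≤ log ((r k : ℝ) + 1) := log_nonneg (by
      have : (0 : ℝ) ≤ r k := Nat.cast_nonneg _
      linarith)
    positivity
  · filter_upwards [eventually_ge_atTop 16, hr.eventually_ge_atTop 1] with k hk hrk
    have hk' : (16 : ℝ) ≤ k := by exact_mod_cast hk
    have hr1 : (1 : ℝ) ≤ r k := by exact_mod_cast hrk
    have hlk : 1 ≤ log k := by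
      rw [Real.le_log_iff_exp_le (by linarith)]
      have := exp_one_lt_d9
      linarith
    have hllk : 0 ≤ log (log k) := log_nonneg hlk
    have hpos : (0 : ℝ) < r k := by linarith
    have hlr : 0 ≤ log ((r k : ℝ) + 1) := log_nonneg (by linarith)
    by_cases hcase : (r k : ℝ) + 1 ≤ (log k) ^ 3
    · have h4 : log ((r k : ℝ) + 1) ≤ 3 * log (log k) := by
        have := log_le_log (by linarith) hcase
        rw [log_pow] at this
        exact_mod_cast this
      have h5 : log k * log ((r k : ℝ) + 1) / r k ≤ log k * (3 * log (log k)) / r k := by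
        apply div_le_div_of_nonneg_right _ hpos.le
        exact mul_le_mul_of_nonneg_left h4 (by linarith)
      have h6 : 0 ≤ 6 * (r k : ℝ) ^ (-(1 / 3 : ℝ)) := by positivity
      calc log k * log ((r k : ℝ) + 1) / r k ≤ log k * (3 * log (log k)) / r k := h5
        _ = 3 * (log k * log (log k) / r k) := by ring
        _ ≤ _ := by linarith
    · push Not at hcase
      have h4 : log k ≤ ((r k : ℝ) + 1) ^ (1 / 3 : ℝ) := by
        have h5 : ((log k) ^ 3) ^ (1 / 3 : ℝ) ≤ ((r k : ℝ) + 1) ^ (1 / 3 : ℝ) :=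
          rpow_le_rpow (by positivity) hcase.le (by norm_num)
        have h6 : ((log k) ^ 3) ^ (1 / 3 : ℝ) = log k := by
          rw [← rpow_natCast, ← rpow_mul (by linarith)]
          norm_num
        rwa [h6] at h5
      have h5 := log_le_three ((r k : ℝ) + 1) (by linarith)
      have h6 : log k * log ((r k : ℝ) + 1) ≤
          ((r k : ℝ) + 1) ^ (1 / 3 : ℝ) * (3 * ((r k : ℝ) + 1) ^ (1 / 3 : ℝ)) :=
        mul_le_mul h4 h5 hlr (by positivity)
      have h7 : ((r k : ℝ) + 1) ^ (1 / 3 : ℝ) * (3 * ((r k : ℝ) + 1) ^ (1 / 3 : ℝ)) =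
          3 * ((r k : ℝ) + 1) ^ (2 / 3 : ℝ) := by
        have : ((r k : ℝ) + 1) ^ (2 / 3 : ℝ) =
            ((r k : ℝ) + 1) ^ (1 / 3 : ℝ) * ((r k : ℝ) + 1) ^ (1 / 3 : ℝ) := by
          rw [← rpow_add (by linarith)]
          norm_num
        rw [this]
        ring
      have h8 : ((r k : ℝ) + 1) ^ (2 / 3 : ℝ) ≤ 2 * (r k : ℝ) ^ (2 / 3 : ℝ) := by
        calc ((r k : ℝ) + 1) ^ (2 / 3 : ℝ) ≤ (2 * (r k : ℝ)) ^ (2 / 3 : ℝ) :=
              rpow_le_rpow (by linarith) (by linarith) (by norm_num)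
          _ = 2 ^ (2 / 3 : ℝ) * (r k : ℝ) ^ (2 / 3 : ℝ) := mul_rpow (by norm_num) hpos.le
          _ ≤ 2 * (r k : ℝ) ^ (2 / 3 : ℝ) := by
              apply mul_le_mul_of_nonneg_right _ (by positivity)
              calc (2 : ℝ) ^ (2 / 3 : ℝ) ≤ 2 ^ (1 : ℝ) :=
                    rpow_le_rpow_of_exponent_le (by norm_num) (by norm_num)
                _ = 2 := rpow_one 2
      have h9 : (r k : ℝ) ^ (2 / 3 : ℝ) / r k = (r k : ℝ) ^ (-(1 / 3 : ℝ)) := by
        rw [div_eq_iff hpos.ne', ← rpow_add_one hpos.ne']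
        norm_num
      have h10 : 0 ≤ log k * log (log k) / r k := by positivity
      calc log k * log ((r k : ℝ) + 1) / r k ≤ (3 * (2 * (r k : ℝ) ^ (2 / 3 : ℝ))) / r k := by
            apply div_le_div_of_nonneg_right _ hpos.le
            rw [h7] at h6
            linarith
        _ = 6 * ((r k : ℝ) ^ (2 / 3 : ℝ) / r k) := by ring
        _ = 6 * (r k : ℝ) ^ (-(1 / 3 : ℝ)) := by rw [h9]
        _ ≤ _ := by linarith

/-- Exact growth for linear rank-width. -/
theorem lrw_exact (r : ℕ → ℕ) (hr : Tendsto r atTop atTop)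
    (h1 : Tendsto (fun k : ℕ => log k * log (log k) / r k) atTop (𝓝 0))
    (h2 : Tendsto (fun k : ℕ => (r k : ℝ) / k) atTop (𝓝 0)) :
    Tendsto (fun k : ℕ => logb 2 (lrwOrder k (r k)) / r k) atTop (𝓝 1) := by
  obtain ⟨hl1, hl2⟩ := log_two_bounds
  have hlpos : 0 < log 2 := by linarith
  have hrr : Tendsto (fun k => (r k : ℝ)) atTop atTop := tendsto_natCast_atTop_atTop.comp hr
  have h3 := key_lim r hr h1
  have h4 : Tendsto (fun k : ℕ => Real.sqrt (log k * log (r k + 1) / r k)) atTop (𝓝 0) := by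
    have := (Real.continuous_sqrt.tendsto 0).comp h3
    rw [Real.sqrt_zero] at this
    exact this
  refine squeeze2 (fun k => logb 2 (lrwOrder k (r k))) (fun k => (r k : ℝ))
    (fun k => (24 / log 2) * (Real.sqrt (r k * log k * log (r k + 1)) + log k * log (r k + 1)))
    (fun k => r k * (r k + 1) / (2 * k) + 5) 1 (hrr.eventually_gt_atTop 0) ?_ ?_ ?_ ?_
  · have h5 : Tendsto (fun k : ℕ => (24 / log 2) * (Real.sqrt (log k * log (r k + 1) / r k) +
        log k * log (r k + 1) / r k)) atTop (𝓝 0) := by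
      simpa using (h4.add h3).const_mul (24 / log 2)
    refine h5.congr' ?_
    filter_upwards [hrr.eventually_gt_atTop 0, eventually_ge_atTop 1] with k hk hk1
    have hk1' : (1 : ℝ) ≤ k := by exact_mod_cast hk1
    have e1 : Real.sqrt (r k * log k * log (r k + 1)) / r k =
        Real.sqrt (log k * log (r k + 1) / r k) := by
      have e2 : (r k : ℝ) * log k * log (r k + 1) = (log k * log (r k + 1) / r k) * (r k : ℝ) ^ 2 := by
        field_simp
      rw [e2, Real.sqrt_mul' _ (by positivity), Real.sqrt_sq hk.le]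
      field_simp
    show 24 / log 2 * (Real.sqrt (log k * log (r k + 1) / r k) + log k * log (r k + 1) / r k) =
      24 / log 2 * (Real.sqrt (r k * log k * log (r k + 1)) + log k * log (r k + 1)) / r k
    rw [← e1]
    ring
  · have h5 : Tendsto (fun k : ℕ => (1 / 2) * ((r k : ℝ) / k) + (1 / 2) * (1 / (k : ℝ)) +
        5 / (r k : ℝ)) atTop (𝓝 0) := by
      have e1 : Tendsto (fun k : ℕ => 1 / (k : ℝ)) atTop (𝓝 0) :=
        tendsto_one_div_atTop_nhds_zero_nat
      have e2 : Tendsto (fun k : ℕ => 5 / (r k : ℝ)) atTop (𝓝 0) :=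
        tendsto_const_nhds.div_atTop hrr
      have e3 := ((h2.const_mul (1 / 2)).add (e1.const_mul (1 / 2))).add e2
      rw [mul_zero, add_zero, add_zero] at e3
      exact e3
    refine h5.congr' ?_
    filter_upwards [hrr.eventually_gt_atTop 0, eventually_ge_atTop 1] with k hk hk1
    have hk1' : (0 : ℝ) < k := by exact_mod_cast hk1
    field_simp
  · filter_upwards [eventually_ge_atTop 2, hr.eventually_ge_atTop 1] with k hk hrk
    have h6 := lrw_upper k (r k) hk hrk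
    rw [logb, div_le_iff₀ hlpos]
    calc log (lrwOrder k (r k)) ≤ _ := h6
      _ = _ := by
        field_simp
  · filter_upwards [eventually_ge_atTop 2] with k hk
    have h6 := lrw_lower k (r k) hk
    have h7 : 0 ≤ logb 2 (k : ℝ) := logb_nonneg (by norm_num) (by
      have : 1 ≤ k := by omega
      exact_mod_cast this)
    rw [logb, le_div_iff₀ hlpos]
    refine le_trans ?_ h6
    apply mul_le_mul_of_nonneg_right _ hlpos.le
    linarith

/-- Exact growth for rank-width. -/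
theorem rw_exact (θ : ℝ) (h0 : 0 < θ) (j : ℕ) (hj1 : 1 ≤ j) (hj2 : θ * j < 1)
    (hj3 : 1 < θ * (j + 1)) :
    Tendsto (fun k : ℕ => logb 2 (rwOrder k ⌊(k : ℝ) ^ θ⌋₊) / (k : ℝ) ^ θ) atTop
      (𝓝 (j : ℝ)) := by
  obtain ⟨hl1, hl2⟩ := log_two_bounds
  have hlpos : 0 < log 2 := by linarith
  obtain ⟨C, hC, h⟩ := rw_upper j
  have hjr : (1 : ℝ) ≤ j := by exact_mod_cast hj1
  have hjpos : (0 : ℝ) < j := by linarith
  have hx : Tendsto (fun k : ℕ => (k : ℝ) ^ θ) atTop atTop :=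
    (tendsto_rpow_atTop h0).comp tendsto_natCast_atTop_atTop
  have hδ : 0 < 1 / (j : ℝ) - θ := by
    have : θ < 1 / j := by
      rw [lt_div_iff₀ hjpos]
      exact hj2
    linarith
  refine squeeze2 (fun k => logb 2 (rwOrder k ⌊(k : ℝ) ^ θ⌋₊)) (fun k => (k : ℝ) ^ θ)
    (fun k => j + (C / log 2) * (k : ℝ) ^ ((1 : ℝ) / ((j : ℝ) + 1)))
    (fun k => j * (5 + 2 * (k : ℝ) ^ (2 * θ - 1 / (j : ℝ)))) j (hx.eventually_gt_atTop 0) ?_ ?_ ?_ ?_
  · have e1 : Tendsto (fun k : ℕ => (j : ℝ) / (k : ℝ) ^ θ) atTop (𝓝 0) :=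
      tendsto_const_nhds.div_atTop hx
    have e2 := (Pool.Agent.N920.TW.e_div θ j hj3).const_mul (C / log 2)
    have e3 := e1.add e2
    rw [mul_zero, add_zero] at e3
    refine e3.congr (fun k => ?_)
    ring
  · have e1 : Tendsto (fun k : ℕ => (5 : ℝ) / (k : ℝ) ^ θ) atTop (𝓝 0) :=
      tendsto_const_nhds.div_atTop hx
    have e2 : Tendsto (fun k : ℕ => (k : ℝ) ^ (-(1 / (j : ℝ) - θ))) atTop (𝓝 0) :=
      (tendsto_rpow_neg_atTop hδ).comp tendsto_natCast_atTop_atTop
    have e3 : Tendsto (fun k : ℕ => (j : ℝ) * (5 / (k : ℝ) ^ θ +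
        2 * (k : ℝ) ^ (-(1 / (j : ℝ) - θ)))) atTop (𝓝 0) := by
      simpa using (e1.add (e2.const_mul 2)).const_mul (j : ℝ)
    refine e3.congr' ?_
    filter_upwards [eventually_ge_atTop 1] with k hk
    have hkpos : (0 : ℝ) < k := by exact_mod_cast hk
    have e4 : (k : ℝ) ^ (2 * θ - 1 / (j : ℝ)) = (k : ℝ) ^ (-(1 / (j : ℝ) - θ)) * (k : ℝ) ^ θ := by
      rw [← rpow_add hkpos]
      congr 1
      ring
    rw [e4]
    have : (k : ℝ) ^ θ ≠ 0 := (rpow_pos_of_pos hkpos θ).ne'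
    field_simp
  · filter_upwards [eventually_ge_atTop 2, hx.eventually_ge_atTop 1] with k hk hk2
    have hx0 : 0 ≤ (k : ℝ) ^ θ := by positivity
    set r := ⌊(k : ℝ) ^ θ⌋₊ with hr
    have hr1 : 1 ≤ r := Nat.le_floor (by simpa using hk2)
    have h1 : (r : ℝ) ≤ (k : ℝ) ^ θ := Nat.floor_le hx0
    have hpos : (0 : ℝ) < rwOrder k r := by
      have := (lrwOrder_pos k r hk).trans (lrwOrder_le_rwOrder k r hr1)
      exact_mod_cast this
    have h2 := log_le_log hpos (h k r)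
    rw [log_mul (by positivity) (exp_pos _).ne', log_exp, log_pow] at h2
    rw [logb, div_le_iff₀ hlpos]
    push_cast at h2
    have h3 : (j : ℝ) * (r + 1) * log 2 ≤ j * ((k : ℝ) ^ θ + 1) * log 2 := by
      apply mul_le_mul_of_nonneg_right _ hlpos.le
      apply mul_le_mul_of_nonneg_left _ hjpos.le
      linarith
    calc log (rwOrder k r : ℝ) ≤ j * (r + 1) * log 2 + C * (k : ℝ) ^ ((1 : ℝ) / ((j : ℝ) + 1)) := h2
      _ ≤ j * ((k : ℝ) ^ θ + 1) * log 2 + C * (k : ℝ) ^ ((1 : ℝ) / ((j : ℝ) + 1)) := by linarith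
      _ = _ := by
        field_simp
        ring
  · have hy : Tendsto (fun k : ℕ => (k : ℝ) ^ (1 / (j : ℝ))) atTop atTop :=
      (tendsto_rpow_atTop (by positivity)).comp tendsto_natCast_atTop_atTop
    filter_upwards [eventually_ge_atTop 2, hx.eventually_ge_atTop 1, hy.eventually_ge_atTop 4]
      with k hk hk2 hk3
    have hkpos : (0 : ℝ) < k := by
      have : 0 < k := by omega
      exact_mod_cast this
    have hx0 : 0 ≤ (k : ℝ) ^ θ := by positivity
    set r := ⌊(k : ℝ) ^ θ⌋₊ with hr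
    have hr1 : 1 ≤ r := Nat.le_floor (by simpa using hk2)
    have h1 : (r : ℝ) ≤ (k : ℝ) ^ θ := Nat.floor_le hx0
    have h1' : (k : ℝ) ^ θ < r + 1 := Nat.lt_floor_add_one _
    set y := (k : ℝ) ^ (1 / (j : ℝ)) with hydef
    set s := ⌊y / 2⌋₊ with hs
    have hs1 : 1 ≤ s := Nat.le_floor (by push_cast; linarith)
    have hs2 : (s : ℝ) ≤ y / 2 := Nat.floor_le (by linarith)
    have hs3 : y / 2 < s + 1 := Nat.lt_floor_add_one _
    have hs4 : y / 4 ≤ s := by linarith
    have hyj : y ^ j = k := by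
      rw [hydef, ← rpow_natCast, ← rpow_mul hkpos.le, one_div, inv_mul_cancel₀ hjpos.ne', rpow_one]
    have hsk : s ^ j < k := by
      have h2 : (s : ℝ) ^ j < k := by
        calc (s : ℝ) ^ j < y ^ j := pow_lt_pow_left₀ (by linarith) (Nat.cast_nonneg _) (by omega)
          _ = k := hyj
      exact_mod_cast h2
    have h2 := rw_lower j k r s hj1 hs1 hr1 hsk
    rw [logb, le_div_iff₀ hlpos]
    refine le_trans ?_ h2
    apply mul_le_mul_of_nonneg_right _ hlpos.le
    have hspos : (0 : ℝ) < s := by exact_mod_cast hs1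
    have h3 : (r : ℝ) ^ 2 / (2 * s) ≤ 2 * (k : ℝ) ^ (2 * θ - 1 / (j : ℝ)) := by
      have e1 : (k : ℝ) ^ (2 * θ - 1 / (j : ℝ)) = ((k : ℝ) ^ θ) ^ 2 / y := by
        rw [hydef, rpow_sub hkpos]
        congr 1
        rw [← rpow_natCast, ← rpow_mul hkpos.le]
        congr 1
        push_cast
        ring
      rw [e1, div_le_iff₀ (by linarith)]
      have hypos : 0 < y := by linarith
      have e2 : (r : ℝ) ^ 2 ≤ ((k : ℝ) ^ θ) ^ 2 := pow_le_pow_left₀ (Nat.cast_nonneg _) h1 2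
      have e3 : 2 * (((k : ℝ) ^ θ) ^ 2 / y) * (2 * s) = ((k : ℝ) ^ θ) ^ 2 * (4 * s / y) := by
        field_simp
        ring
      have e4 : 1 ≤ 4 * s / y := by
        rw [le_div_iff₀ hypos]
        linarith
      rw [e3]
      nlinarith [sq_nonneg ((k : ℝ) ^ θ)]
    have h4 : (k : ℝ) ^ θ - (5 + 2 * (k : ℝ) ^ (2 * θ - 1 / (j : ℝ))) ≤ r - 4 - (r : ℝ) ^ 2 / (2 * s) := by
      linarith
    calc (j : ℝ) * (k : ℝ) ^ θ - j * (5 + 2 * (k : ℝ) ^ (2 * θ - 1 / (j : ℝ))) =
        j * ((k : ℝ) ^ θ - (5 + 2 * (k : ℝ) ^ (2 * θ - 1 / (j : ℝ)))) := by ring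
      _ ≤ _ := mul_le_mul_of_nonneg_left h4 hjpos.le

theorem rw_upper_one : ∃ C : ℝ, 0 < C ∧ ∀ k r : ℕ, 2 ≤ k → 1 ≤ r →
    logb 2 (rwOrder k r) ≤ r + C * Real.sqrt k := by
  obtain ⟨hl1, hl2⟩ := log_two_bounds
  have hlpos : 0 < log 2 := by linarith
  obtain ⟨C, hC, h⟩ := rw_upper 1
  refine ⟨C / log 2 + 1, by positivity, fun k r hk hr1 => ?_⟩
  have hpos : (0 : ℝ) < rwOrder k r := by
    have := (lrwOrder_pos k r hk).trans (lrwOrder_le_rwOrder k r hr1)
    exact_mod_cast this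
  have h2 := log_le_log hpos (h k r)
  rw [log_mul (by positivity) (exp_pos _).ne', log_exp, log_pow, Nat.cast_one, one_add_one_eq_two,
    ← sqrt_eq_rpow] at h2
  push_cast at h2
  rw [logb, div_le_iff₀ hlpos]
  have hsq : 1 ≤ Real.sqrt k := by
    rw [Real.one_le_sqrt]
    exact_mod_cast (by omega : 1 ≤ k)
  have e1 : ((r : ℝ) + (C / log 2 + 1) * Real.sqrt k) * log 2 =
      r * log 2 + C * Real.sqrt k + Real.sqrt k * log 2 := by
    field_simp
    ring
  rw [e1]
  nlinarith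

end Pool.Agent.N920.RW
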