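import Mathlib

/-!
# Random bilinear colourings along a linear order
-/

namespace Pool.Agent.N920.RW

open Finset

open Classical

/-- Row vectors over `F_2`. -/
abbrev E (r : ℕ) := Fin r → ZMod 2

theorem card_E (r : ℕ) : Fintype.card (E r) = 2 ^ r := by
  simp [E]

/-- The number of solutions `y` of `⟨w, y⟩ = b` for all `w ∈ X`. -/
theorem card_sol {r : ℕ} (X : Finset (E r)) (b : ZMod 2) :
    (univ.filter (fun y : E r => ∀ w ∈ X, w ⬝ᵥ y = b)).card *
      2 ^ Module.finrank (ZMod 2) (Submodule.span (ZMod 2) (X : Set (E r))) ≤ 2 ^ r := by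
  rcases (univ.filter (fun y : E r => ∀ w ∈ X, w ⬝ᵥ y = b)).eq_empty_or_nonempty with he | ⟨y0, hy0⟩
  · rw [he]
    simp
  · set M : Matrix X (Fin r) (ZMod 2) := Matrix.of fun w i => w.1 i with hM
    have h1 : (univ.filter (fun y : E r => ∀ w ∈ X, w ⬝ᵥ y = b)).card ≤
        Nat.card (LinearMap.ker M.mulVecLin) := by
      rw [Nat.card_eq_fintype_card, ← card_univ]
      refine card_le_card_of_injOn (fun y => if h : y - y0 ∈ LinearMap.ker M.mulVecLin then
        ⟨y - y0, h⟩ else 0) (fun y _ => mem_coe.2 (mem_univ _)) ?_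
      have hker : ∀ y ∈ univ.filter (fun y : E r => ∀ w ∈ X, w ⬝ᵥ y = b),
          y - y0 ∈ LinearMap.ker M.mulVecLin := by
        intro y hy
        rw [LinearMap.mem_ker, Matrix.mulVecLin_apply]
        funext w
        show (fun i => w.1 i) ⬝ᵥ (y - y0) = 0
        have e1 := (mem_filter.1 hy).2 w.1 w.2
        have e2 := (mem_filter.1 hy0).2 w.1 w.2
        rw [dotProduct_sub]
        show w.1 ⬝ᵥ y - w.1 ⬝ᵥ y0 = 0
        rw [e1, e2, sub_self]
      intro y hy y' hy' h
      have k1 := hker y (mem_coe.1 hy)
      have k2 := hker y' (mem_coe.1 hy')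
      simp only [dif_pos k1, dif_pos k2] at h
      have h2 := congrArg Subtype.val h
      exact sub_left_injective h2
    have h2 : Nat.card (LinearMap.ker M.mulVecLin) =
        2 ^ Module.finrank (ZMod 2) (LinearMap.ker M.mulVecLin) := by
      rw [Module.natCard_eq_pow_finrank (K := ZMod 2), Nat.card_zmod]
    have h3 : Module.finrank (ZMod 2) (Submodule.span (ZMod 2) (X : Set (E r))) = M.rank := by
      rw [Matrix.rank_eq_finrank_span_row]
      have : Set.range M.row = (X : Set (E r)) := by
        ext x
        constructor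
        · rintro ⟨w, rfl⟩
          exact w.2
        · intro hx
          exact ⟨⟨x, hx⟩, rfl⟩
      rw [this]
    have h4 := LinearMap.finrank_range_add_finrank_ker M.mulVecLin
    have h5 : Module.finrank (ZMod 2) (Fin r → ZMod 2) = r := by simp
    rw [h5] at h4
    have h6 : M.rank = Module.finrank (ZMod 2) (LinearMap.range M.mulVecLin) := rfl
    rw [h3, h6]
    calc _ ≤ Nat.card (LinearMap.ker M.mulVecLin) *
          2 ^ Module.finrank (ZMod 2) (LinearMap.range M.mulVecLin) := Nat.mul_le_mul_right _ h1
      _ = 2 ^ r := by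
        rw [h2, ← pow_add, add_comm, h4]

/-- The sequences of `s` pairs which are monochromatic of colour `b`, and compatible with the
earlier vectors `X`. -/
noncomputable def seqs {r : ℕ} (b : ZMod 2) (s : ℕ) (X : Finset (E r)) :
    Finset (Fin s → E r × E r) :=
  univ.filter (fun z => (∀ i j, i < j → (z i).1 ⬝ᵥ (z j).2 = b) ∧
    ∀ j, ∀ w ∈ X, w ⬝ᵥ (z j).2 = b)

theorem seqs_succ {r : ℕ} (b : ZMod 2) (s : ℕ) (X : Finset (E r)) :
    (seqs b (s + 1) X).card ≤ (univ.filter (fun y : E r => ∀ w ∈ X, w ⬝ᵥ y = b)).card *
      ∑ x : E r, (seqs b s (insert x X)).card := by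
  have h1 : (seqs b (s + 1) X).card ≤
      ((univ : Finset (E r)).sigma (fun x => (univ.filter (fun y : E r => ∀ w ∈ X, w ⬝ᵥ y = b)) ×ˢ
        seqs b s (insert x X))).card := by
    refine card_le_card_of_injOn (fun z => (⟨(z 0).1, ((z 0).2, Fin.tail z)⟩ :
      Σ _ : E r, E r × (Fin s → E r × E r))) ?_ ?_
    · intro z hz
      obtain ⟨-, h1, h2⟩ := mem_filter.1 (mem_coe.1 hz)
      rw [mem_coe, mem_sigma]
      refine ⟨mem_univ _, mem_product.2 ⟨mem_filter.2 ⟨mem_univ _, fun w hw => h2 0 w hw⟩, ?_⟩⟩
      refine mem_filter.2 ⟨mem_univ _, ?_, ?_⟩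
      · intro i j hij
        exact h1 i.succ j.succ (Fin.succ_lt_succ_iff.2 hij)
      · intro j w hw
        rcases mem_insert.1 hw with rfl | hw
        · exact h1 0 j.succ (Fin.succ_pos j)
        · exact h2 j.succ w hw
    · intro z _ z' _ h
      simp only [Sigma.mk.injEq, heq_eq_eq, Prod.mk.injEq] at h
      obtain ⟨e1, e2, e3⟩ := h
      rw [← Fin.cons_self_tail z, ← Fin.cons_self_tail z', e3, Prod.ext e1 e2]
  refine h1.trans ?_
  rw [card_sigma, mul_sum]
  refine le_of_eq (sum_congr rfl (fun x _ => ?_))
  rw [card_product]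

theorem seqs_card {r : ℕ} (b : ZMod 2) (s : ℕ) : ∀ X : Finset (E r),
    (seqs b s X).card ≤ 2 ^ (s + r * s +
      (r - Module.finrank (ZMod 2) (Submodule.span (ZMod 2) (X : Set (E r))) + 1).choose 2) := by
  induction s with
  | zero =>
    intro X
    refine le_trans (card_le_univ _) ?_
    simp only [Fintype.card_unique]
    exact Nat.one_le_two_pow
  | succ s ih =>
    intro X
    set d := Module.finrank (ZMod 2) (Submodule.span (ZMod 2) (X : Set (E r))) with hd
    have hdr : d ≤ r := by
      have := Submodule.finrank_le (Submodule.span (ZMod 2) (X : Set (E r)))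
      simpa using this
    have hsol := card_sol X b
    rw [← hd] at hsol
    have hsplit : ∑ x : E r, (seqs b s (insert x X)).card ≤
        2 ^ d * 2 ^ (s + r * s + (r - d + 1).choose 2) +
          (if d < r then 2 ^ r * 2 ^ (s + r * s + (r - d).choose 2) else 0) := by
      rw [← sum_filter_add_sum_filter_not univ
        (fun x : E r => x ∈ Submodule.span (ZMod 2) (X : Set (E r)))]
      refine Nat.add_le_add ?_ ?_
      · have hc : (univ.filter (fun x : E r => x ∈ Submodule.span (ZMod 2) (X : Set (E r)))).card =
            2 ^ d := by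
          have h1 := Module.natCard_eq_pow_finrank (K := ZMod 2)
            (V := Submodule.span (ZMod 2) (X : Set (E r)))
          rw [Nat.card_zmod, ← hd, Nat.card_eq_fintype_card, Fintype.card_subtype] at h1
          convert h1
        rw [← hc, ← smul_eq_mul]
        refine sum_le_card_nsmul _ _ _ (fun x hx => ?_)
        have hx1 := (mem_filter.1 hx).2
        refine (ih (insert x X)).trans ?_
        rw [coe_insert, Submodule.span_insert_eq_span hx1]
      · split_ifs with hlt
        · have hc : (univ.filter (fun x : E r =>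
              ¬ x ∈ Submodule.span (ZMod 2) (X : Set (E r)))).card ≤ 2 ^ r := by
            refine (card_le_univ _).trans ?_
            rw [card_E]
          refine le_trans ?_ (Nat.mul_le_mul_right _ hc)
          rw [← smul_eq_mul]
          refine sum_le_card_nsmul _ _ _ (fun x hx => ?_)
          have hx1 := (mem_filter.1 hx).2
          refine (ih (insert x X)).trans ?_
          have h2 : d + 1 ≤ Module.finrank (ZMod 2)
              (Submodule.span (ZMod 2) ((insert x X : Finset (E r)) : Set (E r))) := by
            rw [coe_insert]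
            have h3 : Submodule.span (ZMod 2) (X : Set (E r)) <
                Submodule.span (ZMod 2) (insert x (X : Set (E r))) := by
              refine lt_of_le_of_ne (Submodule.span_mono (Set.subset_insert _ _)) ?_
              intro h
              apply hx1
              rw [h]
              exact Submodule.subset_span (Set.mem_insert _ _)
            exact Submodule.finrank_lt_finrank_of_lt h3
          refine Nat.pow_le_pow_right (by norm_num) (Nat.add_le_add_left ?_ _)
          exact Nat.choose_le_choose 2 (by omega)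
        · have hempty : univ.filter (fun x : E r =>
              ¬ x ∈ Submodule.span (ZMod 2) (X : Set (E r))) = ∅ := by
            rw [filter_eq_empty_iff]
            intro x _ hx
            apply hx
            have htop : Submodule.span (ZMod 2) (X : Set (E r)) = ⊤ := by
              apply Submodule.eq_top_of_finrank_eq
              rw [← hd]
              simp only [Module.finrank_fintype_fun_eq_card, Fintype.card_fin]
              omega
            rw [htop]
            exact Submodule.mem_top
          rw [hempty, sum_empty]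
    refine (seqs_succ b s X).trans ?_
    set a := (univ.filter (fun y : E r => ∀ w ∈ X, w ⬝ᵥ y = b)).card with ha
    have ha2 : a ≤ 2 ^ (r - d) := by
      have h1 : 2 ^ r = 2 ^ (r - d) * 2 ^ d := by
        rw [← pow_add]
        congr 1
        omega
      rw [h1] at hsol
      exact Nat.le_of_mul_le_mul_right hsol (by positivity)
    refine (Nat.mul_le_mul ha2 hsplit).trans ?_
    rw [mul_add]
    have e1 : 2 ^ (r - d) * (2 ^ d * 2 ^ (s + r * s + (r - d + 1).choose 2)) =
        2 ^ (s + r * (s + 1) + (r - d + 1).choose 2) := by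
      rw [← pow_add, ← pow_add]
      congr 1
      have : r * (s + 1) = r * s + r := by ring
      omega
    have e2 : 2 ^ (r - d) * (if d < r then 2 ^ r * 2 ^ (s + r * s + (r - d).choose 2) else 0) ≤
        2 ^ (s + r * (s + 1) + (r - d + 1).choose 2) := by
      split_ifs with hlt
      · rw [← pow_add, ← pow_add]
        refine Nat.pow_le_pow_right (by norm_num) ?_
        have h1 : (r - d + 1).choose 2 = (r - d) + (r - d).choose 2 := by
          rw [Nat.choose_succ_succ' (r - d) 1, Nat.choose_one_right]
        have : r * (s + 1) = r * s + r := by ring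
        omega
      · simp
    rw [e1]
    have e3 : 2 ^ (s + 1 + r * (s + 1) + (r - d + 1).choose 2) =
        2 ^ (s + r * (s + 1) + (r - d + 1).choose 2) +
          2 ^ (s + r * (s + 1) + (r - d + 1).choose 2) := by
      rw [show s + 1 + r * (s + 1) + (r - d + 1).choose 2 =
        (s + r * (s + 1) + (r - d + 1).choose 2) + 1 by ring, pow_succ]
      ring
    rw [e3]
    exact Nat.add_le_add_left e2 _

/-- Restriction of a random function. -/
theorem count_restrict {α : Type*} [Fintype α] {s n : ℕ} (e : Fin s → Fin n)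
    (he : Function.Injective e) (P : (Fin s → α) → Prop) :
    (univ.filter (fun z : Fin n → α => P (z ∘ e))).card * Fintype.card α ^ s ≤
      (univ.filter P).card * Fintype.card α ^ n := by
  rcases isEmpty_or_nonempty α with hα | hα
  · by_cases hs : s = 0
    · subst hs
      by_cases hn : n = 0
      · subst hn
        rw [pow_zero, mul_one, mul_one]
        refine card_le_card_of_injOn (fun z => z ∘ e) ?_ ?_
        · intro z hz
          exact mem_coe.2 (mem_filter.2 ⟨mem_univ _, (mem_filter.1 (mem_coe.1 hz)).2⟩)
        · intro z _ z' _ _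
          exact Subsingleton.elim _ _
      · have : IsEmpty (Fin n → α) := by
          refine ⟨fun z => hα.elim (z ⟨0, by omega⟩)⟩
        rw [univ_eq_empty]
        simp
    · have : IsEmpty (Fin n → α) := by
        refine ⟨fun z => hα.elim (z (e ⟨0, by omega⟩))⟩
      rw [univ_eq_empty]
      simp
  · set R := {i : Fin n // i ∉ Set.range e} with hR
    have hinj : (univ.filter (fun z : Fin n → α => P (z ∘ e))).card ≤
        ((univ.filter P) ×ˢ (univ : Finset (R → α))).card := by
      refine card_le_card_of_injOn (fun z => (z ∘ e, fun i => z i.1)) ?_ ?_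
      · intro z hz
        exact mem_coe.2 (mem_product.2 ⟨mem_filter.2 ⟨mem_univ _, (mem_filter.1 (mem_coe.1 hz)).2⟩,
          mem_univ _⟩)
      · intro z _ z' _ h
        obtain ⟨h1, h2⟩ := Prod.ext_iff.1 h
        funext i
        by_cases hi : i ∈ Set.range e
        · obtain ⟨j, rfl⟩ := hi
          exact congrFun h1 j
        · exact congrFun h2 ⟨i, hi⟩
    rw [card_product, card_univ, Fintype.card_fun] at hinj
    have hcard : Fintype.card R + s = n := by
      have h1 : Fintype.card {i : Fin n // i ∈ Set.range e} = s := by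
        have := Fintype.card_congr (Equiv.ofInjective e he)
        rw [Fintype.card_fin] at this
        convert this.symm
      have h2 := Fintype.card_subtype_compl (fun i : Fin n => i ∈ Set.range e)
      rw [h1, Fintype.card_fin] at h2
      have h3 : s ≤ n := by
        have := Fintype.card_le_of_injective e he
        simpa using this
      have h4 : Fintype.card R = n - s := by
        rw [← h2]
      omega
    calc _ ≤ (univ.filter P).card * Fintype.card α ^ Fintype.card R * Fintype.card α ^ s :=
          Nat.mul_le_mul_right _ hinj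
      _ = _ := by
        rw [mul_assoc, ← pow_add, hcard]

/-- The random construction. -/
theorem exists_seq (n r s : ℕ)
    (h : n ^ s * 2 ^ (s + 1 + (r + 1).choose 2) < s.factorial * 2 ^ (r * s)) :
    ∃ z : Fin n → E r × E r, ∀ (b : ZMod 2) (e : Fin s → Fin n), StrictMono e →
      ¬ ∀ i j : Fin s, i < j → (z (e i)).1 ⬝ᵥ (z (e j)).2 = b := by
  by_contra hcon
  push Not at hcon
  set α := E r × E r with hα
  have hcα : Fintype.card α = 2 ^ (2 * r) := by
    show Fintype.card (E r × E r) = 2 ^ (2 * r)
    rw [Fintype.card_prod, card_E, ← pow_add]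
    congr 1
    ring
  set P : ZMod 2 → (Fin s → α) → Prop := fun b z => ∀ i j, i < j → (z i).1 ⬝ᵥ (z j).2 = b with hP
  have hcov : (univ : Finset (Fin n → α)) ⊆ (powersetCard s (univ : Finset (Fin n))).biUnion
      (fun S => (univ : Finset (ZMod 2)).biUnion (fun b =>
        if hS : S.card = s then univ.filter (fun z : Fin n → α => P b (z ∘ S.orderEmbOfFin hS))
          else ∅)) := by
    intro z _
    obtain ⟨b, e, he, hz⟩ := hcon z
    have hS : (univ.image e).card = s := by
      rw [card_image_of_injective _ he.injective, card_univ, Fintype.card_fin]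
    refine mem_biUnion.2 ⟨univ.image e, mem_powersetCard.2 ⟨subset_univ _, hS⟩,
      mem_biUnion.2 ⟨b, mem_univ _, ?_⟩⟩
    rw [dif_pos hS]
    refine mem_filter.2 ⟨mem_univ _, ?_⟩
    have he2 : (e : Fin s → Fin n) = (univ.image e).orderEmbOfFin hS :=
      Finset.orderEmbOfFin_unique hS (fun x => mem_image_of_mem e (mem_univ x)) he
    intro i j hij
    have := hz i j hij
    show (z ((univ.image e).orderEmbOfFin hS i)).1 ⬝ᵥ (z ((univ.image e).orderEmbOfFin hS j)).2 = b
    rw [← he2]
    exact this
  have hB : ∀ b : ZMod 2, (univ.filter (P b)).card ≤ 2 ^ (s + r * s + (r + 1).choose 2) := by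
    intro b
    have h1 := seqs_card (r := r) b s ∅
    have h2 : seqs (r := r) b s ∅ = univ.filter (P b) := by
      ext z
      rw [seqs, mem_filter, mem_filter]
      constructor
      · rintro ⟨h3, h4, -⟩
        exact ⟨h3, h4⟩
      · rintro ⟨h3, h4⟩
        exact ⟨h3, h4, fun j w hw => absurd hw (notMem_empty w)⟩
    rw [h2, coe_empty, Submodule.span_empty, finrank_bot, Nat.sub_zero] at h1
    exact h1
  set B := 2 ^ (s + r * s + (r + 1).choose 2) with hBdef
  have h1 := card_le_card hcov
  rw [card_univ, Fintype.card_fun, Fintype.card_fin] at h1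
  have h2 : Fintype.card α ^ n * Fintype.card α ^ s ≤ n.choose s * (2 * (B * Fintype.card α ^ n)) := by
    calc Fintype.card α ^ n * Fintype.card α ^ s ≤
        (∑ S ∈ powersetCard s (univ : Finset (Fin n)), ∑ b : ZMod 2,
          (if hS : S.card = s then univ.filter (fun z : Fin n → α => P b (z ∘ S.orderEmbOfFin hS))
          else ∅).card) * Fintype.card α ^ s := by
          refine Nat.mul_le_mul_right _ (h1.trans (card_biUnion_le.trans
            (sum_le_sum (fun S _ => card_biUnion_le))))
      _ ≤ ∑ S ∈ powersetCard s (univ : Finset (Fin n)), (2 * (B * Fintype.card α ^ n)) := by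
          rw [sum_mul]
          refine sum_le_sum (fun S hS => ?_)
          rw [sum_mul]
          have hScard := (mem_powersetCard.1 hS).2
          have h3 : ∀ b : ZMod 2,
              (if hS : S.card = s then univ.filter (fun z : Fin n → α => P b (z ∘ S.orderEmbOfFin hS))
                else ∅).card * Fintype.card α ^ s ≤ B * Fintype.card α ^ n := by
            intro b
            rw [dif_pos hScard]
            have h4 := count_restrict (S.orderEmbOfFin hScard) (S.orderEmbOfFin hScard).injective
              (P b)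
            have h5 := hB b
            refine le_trans (le_of_eq ?_) (h4.trans (Nat.mul_le_mul_right _ (by convert h5)))
            congr
          refine (sum_le_card_nsmul _ _ _ (fun b _ => h3 b)).trans ?_
          rw [card_univ, ZMod.card, smul_eq_mul]
      _ = _ := by
          rw [sum_const, card_powersetCard, card_univ, Fintype.card_fin, smul_eq_mul]
  have hpos : 0 < Fintype.card α ^ n := by
    rw [hcα]
    positivity
  have h3 : Fintype.card α ^ s ≤ n.choose s * (2 * B) := by
    refine Nat.le_of_mul_le_mul_left ?_ hpos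
    calc Fintype.card α ^ n * Fintype.card α ^ s ≤ n.choose s * (2 * (B * Fintype.card α ^ n)) := h2
      _ = _ := by ring
  rw [hcα] at h3
  have h4 : n.choose s * s.factorial ≤ n ^ s := by
    rw [Nat.choose_eq_descFactorial_div_factorial,
      Nat.div_mul_cancel (Nat.factorial_dvd_descFactorial n s)]
    exact Nat.descFactorial_le_pow n s
  have h5 : (2 ^ (2 * r)) ^ s * s.factorial ≤ n ^ s * (2 * B) := by
    calc (2 ^ (2 * r)) ^ s * s.factorial ≤ n.choose s * (2 * B) * s.factorial :=
          Nat.mul_le_mul_right _ h3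
      _ = n.choose s * s.factorial * (2 * B) := by ring
      _ ≤ _ := Nat.mul_le_mul_right _ h4
  have h6 : (2 ^ (2 * r)) ^ s = 2 ^ (r * s) * 2 ^ (r * s) := by
    rw [← pow_mul, ← pow_add]
    congr 1
    ring
  have h7 : 2 * B = 2 ^ (r * s) * 2 ^ (s + 1 + (r + 1).choose 2) := by
    rw [hBdef, ← pow_add, mul_comm 2, ← pow_succ]
    congr 1
    ring
  rw [h6, h7] at h5
  have h8 : 2 ^ (r * s) * (s.factorial * 2 ^ (r * s)) ≤
      2 ^ (r * s) * (n ^ s * 2 ^ (s + 1 + (r + 1).choose 2)) := by
    calc 2 ^ (r * s) * (s.factorial * 2 ^ (r * s)) = 2 ^ (r * s) * 2 ^ (r * s) * s.factorial := by ring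
      _ ≤ _ := h5
      _ = _ := by ring
  have h9 := Nat.le_of_mul_le_mul_left h8 (by positivity)
  omega

/-- The colouring of a sequence of pairs of vectors. -/
def bil {n r : ℕ} (z : Fin n → E r × E r) : SimpleGraph (Fin n) where
  Adj i j := (i < j ∧ (z i).1 ⬝ᵥ (z j).2 = 1) ∨ (j < i ∧ (z j).1 ⬝ᵥ (z i).2 = 1)
  symm := ⟨by
    rintro i j (h | h)
    · exact Or.inr h
    · exact Or.inl h⟩
  loopless := ⟨by
    rintro i (h | h)
    · exact lt_irrefl _ h.1
    · exact lt_irrefl _ h.1⟩

theorem bil_adj {n r : ℕ} (z : Fin n → E r × E r) {i j : Fin n} (h : i < j) :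
    (bil z).Adj i j ↔ (z i).1 ⬝ᵥ (z j).2 = 1 := by
  constructor
  · rintro (h1 | h1)
    · exact h1.2
    · exact absurd h1.1 (not_lt.2 h.le)
  · intro h1
    exact Or.inl ⟨h, h1⟩

theorem exists_bil (n r s : ℕ)
    (h : n ^ s * 2 ^ (s + 1 + (r + 1).choose 2) < s.factorial * 2 ^ (r * s)) :
    ∃ z : Fin n → E r × E r, (bil z).CliqueFree s ∧ (bil z)ᶜ.CliqueFree s := by
  obtain ⟨z, hz⟩ := exists_seq n r s h
  refine ⟨z, ?_, ?_⟩
  · rintro S ⟨hS1, hS2⟩
    refine hz 1 (S.orderEmbOfFin hS2) (S.orderEmbOfFin hS2).strictMono ?_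
    intro i j hij
    have h1 := (S.orderEmbOfFin hS2).strictMono hij
    rw [← bil_adj z h1]
    exact hS1 (S.orderEmbOfFin_mem hS2 i) (S.orderEmbOfFin_mem hS2 j) h1.ne
  · rintro S ⟨hS1, hS2⟩
    refine hz 0 (S.orderEmbOfFin hS2) (S.orderEmbOfFin hS2).strictMono ?_
    intro i j hij
    have h1 := (S.orderEmbOfFin hS2).strictMono hij
    have h2 := hS1 (S.orderEmbOfFin_mem hS2 i) (S.orderEmbOfFin_mem hS2 j) h1.ne
    rw [SimpleGraph.compl_adj, bil_adj z h1] at h2
    generalize (z (S.orderEmbOfFin hS2 i)).1 ⬝ᵥ (z (S.orderEmbOfFin hS2 j)).2 = x at h2 ⊢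
    have h3 := h2.2
    clear h2
    revert h3
    revert x
    decide

end Pool.Agent.N920.RW
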