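import Pool.Agent.Y422.TW.Upper

/-!
# The upper bound for linear rank-width
-/

namespace Pool.Agent.N920.RW

open Finset

open Classical

set_option linter.unusedSectionVars false

open Pool.Agent.Y422.TW (w le_w exists_w w_mono w_pos w_add w_lt)

theorem big_fiber {α β : Type*} (S : Finset α) (f : α → β) (N : ℕ)
    (hN : (f '' (S : Set α)).ncard ≤ N)
    (hS : S.Nonempty) : ∃ b, S.card ≤ N * (S.filter (fun a => f a = b)).card := by
  by_contra hcon
  push Not at hcon
  rw [← coe_image, Set.ncard_coe_finset] at hN
  have h1 : S.card = ∑ b ∈ S.image f, (S.filter (fun a => f a = b)).card :=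
    card_eq_sum_card_fiberwise (fun a ha => mem_coe.2 (mem_image_of_mem f (mem_coe.1 ha)))
  have h2 : N * S.card = ∑ b ∈ S.image f, N * (S.filter (fun a => f a = b)).card := by
    rw [← mul_sum, ← h1]
  have h3 : ∑ b ∈ S.image f, N * (S.filter (fun a => f a = b)).card < ∑ b ∈ S.image f, S.card :=
    sum_lt_sum_of_nonempty (hS.image f) (fun b _ => hcon b)
  rw [sum_const, smul_eq_mul] at h3
  have h4 : (S.image f).card * S.card ≤ N * S.card := Nat.mul_le_mul_right _ hN
  omega

variable {V : Type*} [Fintype V]

/-- The row of `v` in the adjacency matrix over `F_2`, on the columns in `Z`. -/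
noncomputable def row (G : SimpleGraph V) (Z : Finset V) (v : V) : V → ZMod 2 :=
  fun u => if u ∈ Z ∧ G.Adj v u then 1 else 0

theorem row_eq_iff {G : SimpleGraph V} {Z : Finset V} {v v' : V} (h : row G Z v = row G Z v')
    {u : V} (hu : u ∈ Z) : G.Adj v u ↔ G.Adj v' u := by
  have h1 := congrFun h u
  rw [row, row] at h1
  by_cases h2 : G.Adj v u <;> by_cases h3 : G.Adj v' u
  · exact iff_of_true h2 h3
  · rw [if_pos ⟨hu, h2⟩, if_neg (fun h => h3 h.2)] at h1
    exact absurd h1 one_ne_zero
  · rw [if_neg (fun h => h2 h.2), if_pos ⟨hu, h3⟩] at h1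
    exact absurd h1.symm one_ne_zero
  · exact iff_of_false h2 h3

/-- The direction space of the affine hull of the rows of `S` on the columns in `Z`. -/
noncomputable def dir (G : SimpleGraph V) (S Z : Finset V) : Submodule (ZMod 2) (V → ZMod 2) :=
  Submodule.span (ZMod 2) {x | ∃ v ∈ S, ∃ v' ∈ S, x = row G Z v - row G Z v'}

/-- The dimension of the affine hull of the rows of `S` on the columns in `Z`. -/
noncomputable def adim (G : SimpleGraph V) (S Z : Finset V) : ℕ :=
  Module.finrank (ZMod 2) (dir G S Z)

/-- Restriction to `Z`. -/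
noncomputable def res (Z : Finset V) : (V → ZMod 2) →ₗ[ZMod 2] (V → ZMod 2) where
  toFun x := fun u => if u ∈ Z then x u else 0
  map_add' x y := by
    funext u
    by_cases h : u ∈ Z <;> simp [h]
  map_smul' c x := by
    funext u
    by_cases h : u ∈ Z <;> simp [h]

theorem res_row (G : SimpleGraph V) {Z Z' : Finset V} (h : Z ⊆ Z') (v : V) :
    res Z (row G Z' v) = row G Z v := by
  funext u
  show (if u ∈ Z then (if u ∈ Z' ∧ G.Adj v u then (1 : ZMod 2) else 0) else 0) =
    if u ∈ Z ∧ G.Adj v u then 1 else 0
  by_cases h1 : u ∈ Z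
  · have h2 := h h1
    by_cases h3 : G.Adj v u <;> simp [h1, h2, h3]
  · simp [h1]

theorem dir_le_map (G : SimpleGraph V) {S S' Z Z' : Finset V} (hS : S ⊆ S') (hZ : Z ⊆ Z') :
    dir G S Z ≤ (dir G S' Z').map (res Z) := by
  rw [dir, Submodule.span_le]
  rintro x ⟨v, hv, v', hv', rfl⟩
  refine ⟨row G Z' v - row G Z' v', Submodule.subset_span ⟨v, hS hv, v', hS hv', rfl⟩, ?_⟩
  rw [map_sub, res_row G hZ, res_row G hZ]

theorem adim_mono (G : SimpleGraph V) {S S' Z Z' : Finset V} (hS : S ⊆ S') (hZ : Z ⊆ Z') :
    adim G S Z ≤ adim G S' Z' :=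
  (Submodule.finrank_mono (dir_le_map G hS hZ)).trans (Submodule.finrank_map_le _ _)

theorem adim_add (G : SimpleGraph V) (S P F Z : Finset V)
    (hP : ∀ p ∈ P, ∀ p' ∈ P, row G Z p = row G Z p') :
    adim G P F + adim G S Z ≤ adim G (S ∪ P) (F ∪ Z) := by
  set L := dir G (S ∪ P) (F ∪ Z) with hL
  set f := (res Z).domRestrict L with hf
  have h1 := LinearMap.finrank_range_add_finrank_ker f
  have h2 : adim G S Z ≤ Module.finrank (ZMod 2) (LinearMap.range f) := by
    apply Submodule.finrank_mono
    have h3 := dir_le_map G (S := S) (S' := S ∪ P) (Z := Z) (Z' := F ∪ Z) subset_union_left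
      subset_union_right
    rw [hf, LinearMap.range_domRestrict]
    exact h3
  have h3 : adim G P F ≤ Module.finrank (ZMod 2) (LinearMap.ker f) := by
    have h4 : dir G P F ≤ (LinearMap.ker f).map L.subtype := by
      rw [dir, Submodule.span_le]
      rintro x ⟨p, hp, p', hp', rfl⟩
      have e : row G F p - row G F p' = row G (F ∪ Z) p - row G (F ∪ Z) p' := by
        funext u
        have h5 : u ∈ Z → (G.Adj p u ↔ G.Adj p' u) := fun hu => row_eq_iff (hP p hp p' hp') hu
        show (if u ∈ F ∧ G.Adj p u then (1 : ZMod 2) else 0) - (if u ∈ F ∧ G.Adj p' u then 1 else 0) =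
          (if u ∈ F ∪ Z ∧ G.Adj p u then (1 : ZMod 2) else 0) -
            (if u ∈ F ∪ Z ∧ G.Adj p' u then 1 else 0)
        by_cases hZ : u ∈ Z
        · have h6 := h5 hZ
          by_cases h7 : G.Adj p u
          · have h8 := h6.1 h7
            simp [h7, h8]
          · have h8 : ¬ G.Adj p' u := fun h => h7 (h6.2 h)
            simp [h7, h8]
        · have : (u ∈ F ∪ Z) ↔ u ∈ F := by
            rw [mem_union]
            tauto
          simp only [this]
      have hmem : row G F p - row G F p' ∈ L := by
        rw [e]
        exact Submodule.subset_span ⟨p, mem_union_right _ hp, p', mem_union_right _ hp', rfl⟩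
      refine ⟨⟨_, hmem⟩, ?_, rfl⟩
      rw [SetLike.mem_coe, LinearMap.mem_ker]
      show res Z (row G F p - row G F p') = 0
      rw [e, map_sub, res_row G subset_union_right, res_row G subset_union_right, hP p hp p' hp',
        sub_self]
    exact (Submodule.finrank_mono h4).trans (Submodule.finrank_map_le _ _)
  have h5 : adim G (S ∪ P) (F ∪ Z) = Module.finrank (ZMod 2) L := rfl
  omega

theorem adim_empty_left (G : SimpleGraph V) (Z : Finset V) : adim G ∅ Z = 0 := by
  have : dir G ∅ Z = ⊥ := by
    rw [dir, Submodule.span_eq_bot]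
    rintro x ⟨v, hv, -⟩
    exact absurd hv (notMem_empty v)
  rw [adim, this]
  simp

theorem adim_empty_right (G : SimpleGraph V) (S : Finset V) : adim G S ∅ = 0 := by
  have : dir G S ∅ = ⊥ := by
    rw [dir, Submodule.span_eq_bot]
    rintro x ⟨v, hv, v', hv', rfl⟩
    funext u
    simp [row]
  rw [adim, this]
  simp

/-- The rows of `S` on `Z` take at most `2 ^ adim` values. -/
theorem card_rows_le (G : SimpleGraph V) (S Z : Finset V) :
    (row G Z '' (S : Set V)).ncard ≤ 2 ^ adim G S Z := by
  rcases S.eq_empty_or_nonempty with rfl | ⟨v0, hv0⟩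
  · simp
  · have h1 : row G Z '' (S : Set V) ⊆
        (fun d : V → ZMod 2 => row G Z v0 + d) '' (dir G S Z : Set (V → ZMod 2)) := by
      rintro x ⟨v, hv, rfl⟩
      refine ⟨row G Z v - row G Z v0, Submodule.subset_span ⟨v, mem_coe.1 hv, v0, hv0, rfl⟩, ?_⟩
      show row G Z v0 + (row G Z v - row G Z v0) = row G Z v
      abel
    have hfin : (dir G S Z : Set (V → ZMod 2)).Finite := Set.toFinite _
    refine (Set.ncard_le_ncard h1 (hfin.image _)).trans ((Set.ncard_image_le hfin).trans ?_)
    have h2 : (dir G S Z : Set (V → ZMod 2)).ncard = Nat.card (dir G S Z) := rfl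
    rw [h2, Module.natCard_eq_pow_finrank (K := ZMod 2), Nat.card_zmod, adim]

theorem exists_class (G : SimpleGraph V) (S Z : Finset V) (hS : S.Nonempty) :
    ∃ A ⊆ S, (∀ p ∈ A, ∀ p' ∈ A, row G Z p = row G Z p') ∧ S.card ≤ 2 ^ adim G S Z * A.card := by
  obtain ⟨b, hb⟩ := big_fiber S (row G Z) _ (card_rows_le G S Z) hS
  refine ⟨S.filter (fun a => row G Z a = b), filter_subset _ _, ?_, by convert hb⟩
  intro p hp p' hp'
  rw [(mem_filter.1 hp).2, (mem_filter.1 hp').2]

/-- Along the order given by `f`, all cuts of `G[U]` have affine dimension at most `r`. -/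
def OrdRank (f : V → ℕ) (G : SimpleGraph V) (U : Finset V) (r : ℕ) : Prop :=
  ∀ t : ℕ, adim G (U.filter (fun u => f u < t)) (U.filter (fun u => t ≤ f u)) ≤ r

theorem OrdRank.subset {f : V → ℕ} {G : SimpleGraph V} {U U' : Finset V} {r : ℕ}
    (h : OrdRank f G U r) (hU : U' ⊆ U) : OrdRank f G U' r := fun t =>
  (adim_mono G (filter_subset_filter _ hU) (filter_subset_filter _ hU)).trans (h t)

theorem exists_threshold (f : V → ℕ) (hf : Function.Injective f) (U : Finset V) (c : ℕ)
    (hc : c ≤ U.card) : ∃ t, (U.filter (fun u => f u < t)).card = c := by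
  induction c with
  | zero => exact ⟨0, by simp⟩
  | succ c ih =>
    obtain ⟨t, ht⟩ := ih (by omega)
    have hne : (U.filter (fun u => t ≤ f u)).Nonempty := by
      rw [← card_pos]
      have h1 := card_filter_add_card_filter_not (s := U) (fun u => f u < t)
      simp only [not_lt] at h1
      omega
    obtain ⟨x, hx, hmin⟩ := exists_min_image _ f hne
    obtain ⟨hxU, hxt⟩ := mem_filter.1 hx
    refine ⟨f x + 1, ?_⟩
    have e : U.filter (fun u => f u < f x + 1) = insert x (U.filter (fun u => f u < t)) := by
      ext u
      rw [mem_filter, mem_insert, mem_filter]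
      constructor
      · rintro ⟨h1, h2⟩
        by_cases h3 : f u < t
        · exact Or.inr ⟨h1, h3⟩
        · left
          have h4 := hmin u (mem_filter.2 ⟨h1, by omega⟩)
          exact hf (by omega)
      · rintro (rfl | ⟨h1, h2⟩)
        · exact ⟨hxU, by omega⟩
        · exact ⟨h1, by omega⟩
    rw [e, card_insert_of_notMem, ht]
    intro h
    have := (mem_filter.1 h).2
    omega

theorem flat_step (g : ℕ → ℕ) (r : ℕ) (hg : ∀ i, i < r → g i ≤ g (i + 1)) (h0 : 1 ≤ g 0)
    (hr : g r ≤ r) : ∃ i < r, g (i + 1) = g i := by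
  by_contra hcon
  push Not at hcon
  have key : ∀ i, i ≤ r → i + 1 ≤ g i := by
    intro i
    induction i with
    | zero => intro _; omega
    | succ i ih =>
      intro hi
      have h1 := ih (by omega)
      have h2 := hg i (by omega)
      have h3 := hcon i (by omega)
      omega
  have := key r le_rfl
  omega

theorem prod_add (G : SimpleGraph V) {A B U : Finset V} (hA : A ⊆ U) (hB : B ⊆ U)
    (h : (∀ a ∈ A, ∀ b ∈ B, G.Adj a b) ∨ (∀ a ∈ A, ∀ b ∈ B, Gᶜ.Adj a b)) :
    w G A * w Gᶜ A + w G B * w Gᶜ B ≤ w G U * w Gᶜ U := by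
  have a1 := w_mono G hA
  have a2 := w_mono Gᶜ hA
  have b1 := w_mono G hB
  have b2 := w_mono Gᶜ hB
  rcases h with h | h
  · have h1 := w_add G hA hB h
    calc w G A * w Gᶜ A + w G B * w Gᶜ B ≤ w G A * w Gᶜ U + w G B * w Gᶜ U :=
          Nat.add_le_add (Nat.mul_le_mul_left _ a2) (Nat.mul_le_mul_left _ b2)
      _ = (w G A + w G B) * w Gᶜ U := by ring
      _ ≤ w G U * w Gᶜ U := Nat.mul_le_mul_right _ h1
  · have h1 := w_add Gᶜ hA hB h
    calc w G A * w Gᶜ A + w G B * w Gᶜ B ≤ w G U * w Gᶜ A + w G U * w Gᶜ B :=
          Nat.add_le_add (Nat.mul_le_mul_right _ a1) (Nat.mul_le_mul_right _ b1)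
      _ = w G U * (w Gᶜ A + w Gᶜ B) := by ring
      _ ≤ w G U * w Gᶜ U := Nat.mul_le_mul_left _ h1

/-- The upper bound for linear rank-width. -/
theorem ord_upper (G : SimpleGraph V) (f : V → ℕ) (hf : Function.Injective f) (R h : ℕ)
    (hh : 1 ≤ h) (N : ℕ) : ∀ q r : ℕ, q + r ≤ N → r ≤ R → ∀ U : Finset V, OrdRank f G U r →
      2 ^ (r + h * q) * (2 * (R + 2)) ^ (q + r / h) ≤ U.card → 2 ^ q ≤ w G U * w Gᶜ U := by
  induction N with
  | zero =>
    intro q r hN hr U hU hc
    obtain ⟨rfl, rfl⟩ : q = 0 ∧ r = 0 := by omega
    have hne : U.Nonempty := by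
      rw [← card_pos]
      refine lt_of_lt_of_le ?_ hc
      positivity
    have h1 := w_pos G hne
    have h2 := w_pos Gᶜ hne
    rw [pow_zero]
    exact Nat.mul_le_mul h1 h2
  | succ N ih =>
    intro q r hN hr U hU hc
    have hKpos : 0 < 2 * (R + 2) := by omega
    rcases Nat.eq_zero_or_pos q with rfl | hq
    · have hne : U.Nonempty := by
        rw [← card_pos]
        refine lt_of_lt_of_le ?_ hc
        positivity
      have h1 := w_pos G hne
      have h2 := w_pos Gᶜ hne
      rw [pow_zero]
      exact Nat.mul_le_mul h1 h2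
    · obtain ⟨q, rfl⟩ : ∃ q', q = q' + 1 := ⟨q - 1, by omega⟩
      set K := 2 * (R + 2) with hK
      set n := U.card with hn
      have hnK : K ≤ n := by
        refine le_trans ?_ hc
        calc K = 1 * K ^ 1 := by simp
          _ ≤ 2 ^ (r + h * (q + 1)) * K ^ (q + 1 + r / h) :=
            Nat.mul_le_mul Nat.one_le_two_pow (Nat.pow_le_pow_right hKpos
              ((Nat.le_add_left 1 q).trans (Nat.le_add_right _ _)))
      set a := n / (r + 2) with ha
      have ha1 : 1 ≤ a := by
        rw [ha, Nat.one_le_div_iff (by omega)]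
        omega
      have haK : n ≤ K * a := by
        have h1 : n < (r + 2) * (a + 1) := by
          have := Nat.lt_mul_div_succ n (show 0 < r + 2 by omega)
          rw [ha]
          exact this
        have h2 : (r + 2) * (a + 1) ≤ (R + 2) * (2 * a) := Nat.mul_le_mul (by omega) (by omega)
        have h3 : (R + 2) * (2 * a) = K * a := by rw [hK]; ring
        omega
      have han : (r + 2) * a ≤ n := Nat.mul_div_le n (r + 2)
      have hex : ∀ i : ℕ, ∃ t, i ≤ r → (U.filter (fun u => f u < t)).card = (i + 1) * a := by
        intro i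
        by_cases hi : i ≤ r
        · obtain ⟨t, ht⟩ := exists_threshold f hf U ((i + 1) * a)
            ((Nat.mul_le_mul_right _ (show i + 1 ≤ r + 2 by omega)).trans han)
          exact ⟨t, fun _ => ht⟩
        · exact ⟨0, fun h => absurd h hi⟩
      choose t ht using hex
      have htmono : ∀ i j, i ≤ j → j ≤ r → t i ≤ t j := by
        intro i j hij hj
        rcases Nat.eq_or_lt_of_le hij with rfl | hlt
        · exact le_rfl
        · by_contra hcon
          push Not at hcon
          have h1 : (U.filter (fun u => f u < t j)).card ≤ (U.filter (fun u => f u < t i)).card := by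
            apply card_le_card
            intro u hu
            obtain ⟨h2, h3⟩ := mem_filter.1 hu
            exact mem_filter.2 ⟨h2, by omega⟩
          rw [ht i (by omega), ht j hj] at h1
          have h2 : (i + 1) * a < (j + 1) * a := Nat.mul_lt_mul_of_pos_right (by omega) (by omega)
          omega
      set S : ℕ → Finset V := fun i => U.filter (fun u => f u < t i) with hS
      set Z := U.filter (fun u => t r ≤ f u) with hZ
      have hScard : ∀ i, i ≤ r → (S i).card = (i + 1) * a := fun i hi => ht i hi
      have hZcard : a ≤ Z.card := by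
        have h1 := card_filter_add_card_filter_not (s := U) (fun u => f u < t r)
        simp only [not_lt] at h1
        rw [ht r le_rfl] at h1
        have h2 : (r + 2) * a = (r + 1) * a + a := by ring
        have h3 : Z.card = (U.filter (fun u => t r ≤ f u)).card := rfl
        omega
      have hSmono : ∀ i j, i ≤ j → j ≤ r → S i ⊆ S j := by
        intro i j hij hj u hu
        obtain ⟨h1, h2⟩ := mem_filter.1 hu
        have := htmono i j hij hj
        exact mem_filter.2 ⟨h1, by omega⟩
      set g : ℕ → ℕ := fun i => adim G (S i) Z with hg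
      have hgr : g r ≤ r := hU (t r)
      have hgmono : ∀ i j, i ≤ j → j ≤ r → g i ≤ g j := fun i j hij hj =>
        adim_mono G (hSmono i j hij hj) (subset_refl _)
      by_cases hcase : g 0 < h
      · -- few types between `S 0` and `Z`
        have hS0 : (S 0).card = a := by
          have := hScard 0 (by omega)
          simpa using this
        have hne0 : (S 0).Nonempty := by
          rw [← card_pos]
          omega
        obtain ⟨A, hA1, hA2, hA3⟩ := exists_class G (S 0) Z hne0
        rw [hS0] at hA3
        have hA4 : a ≤ 2 ^ h * A.card := by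
          refine hA3.trans (Nat.mul_le_mul_right _ ?_)
          exact Nat.pow_le_pow_right (by norm_num) (show g 0 ≤ h by omega)
        have hAne : A.Nonempty := by
          rw [← card_pos]
          by_contra hcon
          have : A.card = 0 := by omega
          rw [this] at hA4
          omega
        obtain ⟨v0, hv0⟩ := hAne
        -- the larger half of `Z`
        have hB : ∃ B ⊆ Z, a ≤ 2 * B.card ∧
            ((∀ x ∈ A, ∀ b ∈ B, G.Adj x b) ∨ (∀ x ∈ A, ∀ b ∈ B, Gᶜ.Adj x b)) := by
          have h1 := card_filter_add_card_filter_not (s := Z) (fun u => G.Adj v0 u)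
          by_cases h2 : a ≤ 2 * (Z.filter (fun u => G.Adj v0 u)).card
          · refine ⟨_, filter_subset _ _, h2, Or.inl ?_⟩
            intro x hx b hb
            obtain ⟨h3, h4⟩ := mem_filter.1 hb
            exact (row_eq_iff (hA2 v0 hv0 x hx) h3).1 h4
          · refine ⟨Z.filter (fun u => ¬ G.Adj v0 u), filter_subset _ _, by omega, Or.inr ?_⟩
            intro x hx b hb
            obtain ⟨h3, h4⟩ := mem_filter.1 hb
            rw [SimpleGraph.compl_adj]
            refine ⟨?_, fun h5 => h4 ((row_eq_iff (hA2 v0 hv0 x hx) h3).2 h5)⟩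
            rintro rfl
            have h5 := (mem_filter.1 (hA1 hx)).2
            have h6 := (mem_filter.1 h3).2
            have h7 := htmono 0 r (by omega) le_rfl
            omega
        obtain ⟨B, hB1, hB2, hB3⟩ := hB
        have hB4 : a ≤ 2 ^ h * B.card := by
          refine hB2.trans (Nat.mul_le_mul_right _ ?_)
          calc 2 = 2 ^ 1 := by norm_num
            _ ≤ 2 ^ h := Nat.pow_le_pow_right (by norm_num) hh
        have hAU : A ⊆ U := hA1.trans (filter_subset _ _)
        have hBU : B ⊆ U := hB1.trans (filter_subset _ _)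
        have hsize : ∀ X : Finset V, a ≤ 2 ^ h * X.card →
            2 ^ (r + h * q) * K ^ (q + r / h) ≤ X.card := by
          intro X hX
          have h1 : 2 ^ (r + h * (q + 1)) * K ^ (q + 1 + r / h) =
              (K * 2 ^ h) * (2 ^ (r + h * q) * K ^ (q + r / h)) := by
            rw [show r + h * (q + 1) = (r + h * q) + h by ring,
              show q + 1 + r / h = (q + r / h) + 1 by ring, pow_add, pow_succ]
            ring
          have h2 : n ≤ (K * 2 ^ h) * X.card := by
            calc n ≤ K * a := haK
              _ ≤ K * (2 ^ h * X.card) := Nat.mul_le_mul_left _ hX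
              _ = _ := by ring
          rw [h1] at hc
          exact Nat.le_of_mul_le_mul_left (hc.trans h2) (by positivity)
        have i1 := ih q r (by omega) hr A (hU.subset hAU) (hsize A hA4)
        have i2 := ih q r (by omega) hr B (hU.subset hBU) (hsize B hB4)
        have i3 := prod_add G hAU hBU hB3
        rw [pow_succ]
        omega
      · -- many types
        push Not at hcase
        obtain ⟨i, hi, hflat⟩ := flat_step g r (fun i hi => hgmono i (i + 1) (by omega) (by omega))
          (by omega) hgr
        set ρ := g i with hρ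
        have hρh : h ≤ ρ := hcase.trans (hgmono 0 i (by omega) (by omega))
        have hρr : ρ ≤ r := (hgmono i r (by omega) le_rfl).trans hgr
        set W := S (i + 1) \ S i with hW
        have hWcard : W.card = a := by
          rw [hW, card_sdiff_of_subset (hSmono i (i + 1) (by omega) (by omega)),
            hScard _ (by omega), hScard _ (by omega)]
          have : (i + 1 + 1) * a = (i + 1) * a + a := by ring
          omega
        have hWne : W.Nonempty := by
          rw [← card_pos]
          omega
        obtain ⟨C, hC1, hC2, hC3⟩ := exists_class G W Z hWne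
        have hC4 : a ≤ 2 ^ ρ * C.card := by
          rw [hWcard] at hC3
          refine hC3.trans (Nat.mul_le_mul_right _ (Nat.pow_le_pow_right (by norm_num) ?_))
          rw [← hflat]
          exact adim_mono G sdiff_subset (subset_refl _)
        have hCU : C ⊆ U := (hC1.trans sdiff_subset).trans (filter_subset _ _)
        have hOrd : OrdRank f G C (r - ρ) := by
          intro s
          rcases (C.filter (fun u => f u < s)).eq_empty_or_nonempty with he | ⟨p, hp⟩
          · rw [he, adim_empty_left]
            omega
          · rcases (C.filter (fun u => s ≤ f u)).eq_empty_or_nonempty with he | ⟨u, hu⟩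
            · rw [he, adim_empty_right]
              omega
            · obtain ⟨hp1, hp2⟩ := mem_filter.1 hp
              obtain ⟨hu1, hu2⟩ := mem_filter.1 hu
              have hp3 : t i ≤ f p := by
                by_contra hcon
                push Not at hcon
                have h1 := hC1 hp1
                rw [hW, mem_sdiff] at h1
                exact h1.2 (mem_filter.2 ⟨hCU hp1, hcon⟩)
              have hu3 : f u < t (i + 1) := by
                have h1 := hC1 hu1
                rw [hW, mem_sdiff] at h1
                exact (mem_filter.1 h1.1).2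
              have hu4 := htmono (i + 1) r (by omega) le_rfl
              have h1 := adim_add G (S i) (C.filter (fun u => f u < s)) (C.filter (fun u => s ≤ f u)) Z
                (fun x hx y hy => hC2 x (mem_filter.1 hx).1 y (mem_filter.1 hy).1)
              have h2 : adim G (S i ∪ C.filter (fun u => f u < s)) (C.filter (fun u => s ≤ f u) ∪ Z) ≤ r := by
                refine (adim_mono G ?_ ?_).trans (hU s)
                · intro x hx
                  rcases mem_union.1 hx with hx | hx
                  · obtain ⟨h3, h4⟩ := mem_filter.1 hx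
                    exact mem_filter.2 ⟨h3, by omega⟩
                  · obtain ⟨h3, h4⟩ := mem_filter.1 hx
                    exact mem_filter.2 ⟨hCU h3, h4⟩
                · intro x hx
                  rcases mem_union.1 hx with hx | hx
                  · obtain ⟨h3, h4⟩ := mem_filter.1 hx
                    exact mem_filter.2 ⟨hCU h3, h4⟩
                  · obtain ⟨h3, h4⟩ := mem_filter.1 hx
                    exact mem_filter.2 ⟨h3, by omega⟩
              have h3 : adim G (S i) Z = ρ := rfl
              omega
        have hsize : 2 ^ (r - ρ + h * (q + 1)) * K ^ (q + 1 + (r - ρ) / h) ≤ C.card := by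
          have h1 : (K * 2 ^ ρ) * (2 ^ (r - ρ + h * (q + 1)) * K ^ (q + 1 + (r - ρ) / h)) ≤
              2 ^ (r + h * (q + 1)) * K ^ (q + 1 + r / h) := by
            have e1 : 2 ^ ρ * 2 ^ (r - ρ + h * (q + 1)) = 2 ^ (r + h * (q + 1)) := by
              rw [← pow_add]
              congr 1
              omega
            have e2 : (r - ρ) / h + 1 ≤ r / h := by
              rw [← Nat.add_div_right _ (by omega)]
              exact Nat.div_le_div_right (by omega)
            have e3 : K * K ^ (q + 1 + (r - ρ) / h) ≤ K ^ (q + 1 + r / h) := by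
              rw [mul_comm, ← pow_succ]
              exact Nat.pow_le_pow_right hKpos (by omega)
            calc (K * 2 ^ ρ) * (2 ^ (r - ρ + h * (q + 1)) * K ^ (q + 1 + (r - ρ) / h)) =
                (2 ^ ρ * 2 ^ (r - ρ + h * (q + 1))) * (K * K ^ (q + 1 + (r - ρ) / h)) := by ring
              _ ≤ _ := by
                rw [e1]
                exact Nat.mul_le_mul_left _ e3
          have h2 : n ≤ (K * 2 ^ ρ) * C.card := by
            calc n ≤ K * a := haK
              _ ≤ K * (2 ^ ρ * C.card) := Nat.mul_le_mul_left _ hC4
              _ = _ := by ring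
          exact Nat.le_of_mul_le_mul_left (h1.trans (hc.trans h2)) (by positivity)
        have i1 := ih (q + 1) (r - ρ) (by omega) (by omega) C hOrd hsize
        refine i1.trans (Nat.mul_le_mul (w_mono G hCU) (w_mono Gᶜ hCU))

end Pool.Agent.N920.RW
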