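import Pool.Agent.N920.RW.Width

/-!
# Largest colourings of bounded (linear) rank-width: finite bounds
-/

namespace Pool.Agent.N920.RW

open Finset Real

open Classical

open Pool.Agent.N920.TW (NoMono types Dec ModuleWidthLE ramsey mwOrder mwOrder_le le_mwOrder
  upper_mw card_lt_ramsey)

attribute [-instance] instDecidableEqProd

/-- The largest number of vertices of a colouring of linear rank-width at most `r` without
monochromatic `K_k`. -/
noncomputable def lrwOrder (k r : ℕ) : ℕ :=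
  sSup {n : ℕ | ∃ (V : Type) (_ : Fintype V) (G : SimpleGraph V),
    Fintype.card V = n ∧ NoMono G k ∧ LinRankWidthLE G r}

/-- The largest number of vertices of a colouring of rank-width at most `r` without
monochromatic `K_k`. -/
noncomputable def rwOrder (k r : ℕ) : ℕ :=
  sSup {n : ℕ | ∃ (V : Type) (_ : Fintype V) (G : SimpleGraph V),
    Fintype.card V = n ∧ NoMono G k ∧ RankWidthLE G r}

theorem bdd_lrw (k r : ℕ) : BddAbove {n : ℕ | ∃ (V : Type) (_ : Fintype V) (G : SimpleGraph V),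
    Fintype.card V = n ∧ NoMono G k ∧ LinRankWidthLE G r} := by
  refine (Pool.Agent.N920.TW.bdd_all k).mono ?_
  rintro n ⟨V, hV, G, h1, h2, -⟩
  exact ⟨V, hV, G, h1, h2⟩

theorem bdd_rw (k r : ℕ) : BddAbove {n : ℕ | ∃ (V : Type) (_ : Fintype V) (G : SimpleGraph V),
    Fintype.card V = n ∧ NoMono G k ∧ RankWidthLE G r} := by
  refine (Pool.Agent.N920.TW.bdd_all k).mono ?_
  rintro n ⟨V, hV, G, h1, h2, -⟩
  exact ⟨V, hV, G, h1, h2⟩

theorem le_lrwOrder {V : Type} [Fintype V] {G : SimpleGraph V} {k r : ℕ} (h1 : NoMono G k)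
    (h2 : LinRankWidthLE G r) : Fintype.card V ≤ lrwOrder k r :=
  le_csSup (bdd_lrw k r) ⟨V, inferInstance, G, rfl, h1, h2⟩

theorem le_rwOrder {V : Type} [Fintype V] {G : SimpleGraph V} {k r : ℕ} (h1 : NoMono G k)
    (h2 : RankWidthLE G r) : Fintype.card V ≤ rwOrder k r :=
  le_csSup (bdd_rw k r) ⟨V, inferInstance, G, rfl, h1, h2⟩

theorem noMono_one (k : ℕ) (hk : 2 ≤ k) : NoMono (⊥ : SimpleGraph (Fin 1)) k :=
  ⟨SimpleGraph.cliqueFree_of_card_lt (by rw [Fintype.card_fin]; omega),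
    SimpleGraph.cliqueFree_of_card_lt (by rw [Fintype.card_fin]; omega)⟩

theorem lin_one (r : ℕ) : LinRankWidthLE (⊥ : SimpleGraph (Fin 1)) r := by
  refine ⟨fun i => i.val, Fin.val_injective, fun t => ?_⟩
  show cutRank (⊥ : SimpleGraph (Fin 1)) (univ.filter (fun v => v.val < t)) ≤ r
  have := cutRank_le (ι := Fin 0) (⊥ : SimpleGraph (Fin 1)) (univ.filter (fun v => v.val < t))
    (fun _ _ => 0) (fun _ _ => 0) (by
      intro v _ u _
      simp)
  rw [Fintype.card_fin] at this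
  omega

theorem lrwOrder_pos (k r : ℕ) (hk : 2 ≤ k) : 1 ≤ lrwOrder k r := by
  have := le_lrwOrder (noMono_one k hk) (lin_one r)
  rwa [Fintype.card_fin] at this

theorem lrwOrder_le_rwOrder (k r : ℕ) (hr : 1 ≤ r) : lrwOrder k r ≤ rwOrder k r := by
  rcases Set.eq_empty_or_nonempty {n : ℕ | ∃ (V : Type) (_ : Fintype V) (G : SimpleGraph V),
    Fintype.card V = n ∧ NoMono G k ∧ LinRankWidthLE G r} with he | hne
  · rw [lrwOrder, he]
    simp
  · obtain ⟨V, hV, G, h1, h2, h3⟩ := Nat.sSup_mem hne (bdd_lrw k r)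
    rcases isEmpty_or_nonempty V with hV' | hV'
    · rw [Fintype.card_eq_zero] at h1
      rw [lrwOrder, ← h1]
      exact Nat.zero_le _
    · rw [lrwOrder, ← h1]
      exact le_rwOrder h2 (h3.rankWidthLE hr)

/-- Finite upper bound for linear rank-width. -/
theorem lrwOrder_le (k r h q : ℕ) (hh : 1 ≤ h) (hk : k ^ 2 ≤ 2 ^ q) :
    lrwOrder k r ≤ 2 ^ (r + h * q) * (2 * (r + 2)) ^ (q + r / h) := by
  rcases Set.eq_empty_or_nonempty {n : ℕ | ∃ (V : Type) (_ : Fintype V) (G : SimpleGraph V),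
    Fintype.card V = n ∧ NoMono G k ∧ LinRankWidthLE G r} with he | hne
  · rw [lrwOrder, he]
    simp
  · obtain ⟨V, hV, G, h1, h2, h3⟩ := Nat.sSup_mem hne (bdd_lrw k r)
    rw [lrwOrder, ← h1]
    exact lin_upper G r h q k hh hk h2 h3

/-- Finite upper bounds for rank-width. -/
theorem rwOrder_le_mwOrder (k r : ℕ) : rwOrder k r ≤ mwOrder k (2 ^ r) := by
  rcases Set.eq_empty_or_nonempty {n : ℕ | ∃ (V : Type) (_ : Fintype V) (G : SimpleGraph V),
    Fintype.card V = n ∧ NoMono G k ∧ RankWidthLE G r} with he | hne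
  · rw [rwOrder, he]
    simp
  · obtain ⟨V, hV, G, h1, h2, h3⟩ := Nat.sSup_mem hne (bdd_rw k r)
    rw [rwOrder, ← h1]
    exact le_mwOrder h2 h3.moduleWidthLE

theorem rwOrder_lt_ramsey (k r : ℕ) (hk : 2 ≤ k) : rwOrder k r < ramsey k :=
  lt_of_le_of_lt (rwOrder_le_mwOrder k r) (Pool.Agent.N920.TW.mwOrder_lt_ramsey k _ hk)

theorem rw_upper (j : ℕ) : ∃ C : ℝ, 0 < C ∧ ∀ k r : ℕ, (rwOrder k r : ℝ) ≤
    (2 : ℝ) ^ (j * (r + 1)) * exp (C * (k : ℝ) ^ ((1 : ℝ) / ((j : ℝ) + 1))) := by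
  obtain ⟨C, hC, h⟩ := upper_mw j
  refine ⟨C, hC, fun k r => ?_⟩
  have h1 : (rwOrder k r : ℝ) ≤ mwOrder k (2 ^ r) := by exact_mod_cast rwOrder_le_mwOrder k r
  refine h1.trans (mwOrder_le (by positivity) (fun V _ G g1 g2 => (h V G (2 ^ r) k g1 g2).trans ?_))
  refine mul_le_mul_of_nonneg_right (le_of_eq ?_) (exp_pos _).le
  push_cast
  rw [← pow_succ', ← pow_mul, mul_comm j]

/-- The lower bound for linear rank-width. -/
theorem lrw_lower_nat (n k r : ℕ)
    (h : n ^ k * 2 ^ (k + 1 + (r + 1).choose 2) < k.factorial * 2 ^ (r * k)) :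
    n ≤ lrwOrder k r := by
  obtain ⟨z, h1, h2⟩ := exists_bil n r k h
  have := le_lrwOrder (⟨h1, h2⟩ : NoMono (bil z) k) (bil_lin z)
  rwa [Fintype.card_fin] at this

theorem choose_real (r : ℕ) : (((r + 1).choose 2 : ℕ) : ℝ) = r * (r + 1) / 2 := by
  rw [Nat.cast_choose_two]
  push_cast
  ring

theorem log_two_bounds : (0.69 : ℝ) < log 2 ∧ log 2 < 0.7 := by
  have h1 := log_two_gt_d9
  have h2 := log_two_lt_d9
  constructor <;> linarith

theorem lrw_lower (k r : ℕ) (hk : 2 ≤ k) :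
    (r + logb 2 k - r * (r + 1) / (2 * k) - 5) * log 2 ≤ log (lrwOrder k r) := by
  obtain ⟨hl1, hl2⟩ := log_two_bounds
  have hkpos : (0 : ℝ) < k := by
    have : 0 < k := by omega
    exact_mod_cast this
  have hk2 : (2 : ℝ) ≤ k := by exact_mod_cast hk
  have hlogb : logb 2 k * log 2 = log k := by
    rw [logb, div_mul_cancel₀]
    linarith
  set T : ℝ := r * (r + 1) / 2 with hT
  set y : ℝ := r - 1 - (2 + T) / k with hy
  set x : ℝ := (k / exp 1) * exp (y * log 2) with hx
  have hxpos : 0 < x := by rw [hx]; positivity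
  have hlogx : log x = log k - 1 + y * log 2 := by
    rw [hx, log_mul (by positivity) (exp_pos _).ne', log_div hkpos.ne' (exp_pos _).ne', log_exp,
      log_exp]
  have hgoal : (r + logb 2 k - r * (r + 1) / (2 * k) - 5) * log 2 ≤ log x - log 2 := by
    rw [hlogx, hy]
    have e1 : (r : ℝ) * (r + 1) / (2 * k) = T / k := by
      rw [hT]
      field_simp
    have e2 : (2 + T) / k = 2 / k + T / k := by ring
    have e3 : (2 : ℝ) / k ≤ 1 := by
      rw [div_le_one hkpos]
      exact hk2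
    rw [e1, e2]
    nlinarith
  rcases lt_or_ge x 1 with hx1 | hx1
  · have h1 : log x ≤ 0 := log_nonpos hxpos.le hx1.le
    have h2 : 0 ≤ log (lrwOrder k r : ℝ) := by
      apply log_nonneg
      exact_mod_cast lrwOrder_pos k r hk
    linarith
  · set n := ⌊x⌋₊ with hn
    have hnx : (n : ℝ) ≤ x := Nat.floor_le hxpos.le
    have hn1 : 1 ≤ n := Nat.le_floor (by simpa using hx1)
    have hnx2 : x ≤ 2 * n := by
      have h1 := Nat.lt_floor_add_one x
      have h2 : (1 : ℝ) ≤ n := by exact_mod_cast hn1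
      linarith
    have hfac : (k : ℝ) ^ k ≤ exp 1 ^ k * k.factorial := by
      have h1 := Real.pow_div_factorial_le_exp (k : ℝ) hkpos.le k
      rw [div_le_iff₀ (by positivity)] at h1
      rw [← exp_nat_mul, mul_one]
      exact h1
    have hcond : n ^ k * 2 ^ (k + 1 + (r + 1).choose 2) < k.factorial * 2 ^ (r * k) := by
      have h1 : ((n : ℝ)) ^ k * (2 : ℝ) ^ (k + 1 + (r + 1).choose 2) <
          k.factorial * (2 : ℝ) ^ (r * k) := by
        have e0 : ∀ a : ℕ, (2 : ℝ) ^ a = exp (a * log 2) := by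
          intro a
          rw [exp_nat_mul, exp_log (by norm_num)]
        have h2 : ((n : ℝ)) ^ k ≤ x ^ k := pow_le_pow_left₀ (by positivity) hnx k
        have h3 : x ^ k = (k : ℝ) ^ k / exp 1 ^ k * exp (k * (y * log 2)) := by
          rw [hx, mul_pow, div_pow, exp_nat_mul (y * log 2) k]
        have h4 : (k : ℝ) ^ k / exp 1 ^ k ≤ k.factorial := by
          rw [div_le_iff₀ (by positivity)]
          linarith
        have h5 : x ^ k ≤ k.factorial * exp (k * (y * log 2)) := by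
          rw [h3]
          exact mul_le_mul_of_nonneg_right h4 (exp_pos _).le
        have h6 : exp (k * (y * log 2)) * (2 : ℝ) ^ (k + 1 + (r + 1).choose 2) <
            (2 : ℝ) ^ (r * k) := by
          rw [e0, e0, ← exp_add]
          apply exp_lt_exp.2
          push_cast
          rw [choose_real, ← hT]
          have e1 : (k : ℝ) * y = r * k - k - (2 + T) := by
            rw [hy]
            field_simp
          have e2 : (k : ℝ) * (y * log 2) = (r * k - k - (2 + T)) * log 2 := by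
            rw [← mul_assoc, e1]
          rw [e2]
          nlinarith
        calc ((n : ℝ)) ^ k * (2 : ℝ) ^ (k + 1 + (r + 1).choose 2) ≤
            k.factorial * exp (k * (y * log 2)) * (2 : ℝ) ^ (k + 1 + (r + 1).choose 2) :=
              mul_le_mul_of_nonneg_right (h2.trans h5) (by positivity)
          _ = k.factorial * (exp (k * (y * log 2)) * (2 : ℝ) ^ (k + 1 + (r + 1).choose 2)) := by ring
          _ < k.factorial * (2 : ℝ) ^ (r * k) := by
              apply mul_lt_mul_of_pos_left h6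
              positivity
      exact_mod_cast h1
    have h1 := lrw_lower_nat n k r hcond
    have h2 : (n : ℝ) ≤ lrwOrder k r := by exact_mod_cast h1
    have h3 : (0 : ℝ) < n := by exact_mod_cast hn1
    have h4 := log_le_log hxpos hnx2
    rw [log_mul (by norm_num) h3.ne'] at h4
    have h5 := log_le_log h3 h2
    linarith

set_option maxHeartbeats 1000000 in
/-- The upper bound for linear rank-width. -/
theorem lrw_upper (k r : ℕ) (hk : 2 ≤ k) (hr : 1 ≤ r) :
    log (lrwOrder k r) ≤ r * log 2 +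
      24 * (Real.sqrt (r * log k * log (r + 1)) + log k * log (r + 1)) := by
  obtain ⟨hl1, hl2⟩ := log_two_bounds
  set L := log 2 with hL
  have hkpos : (0 : ℝ) < k := by
    have : 0 < k := by omega
    exact_mod_cast this
  have hk2 : (2 : ℝ) ≤ k := by exact_mod_cast hk
  have hr1 : (1 : ℝ) ≤ r := by exact_mod_cast hr
  set p := Nat.log 2 k + 1 with hp
  set q := 2 * p with hq
  have hlogk : L ≤ log k := log_le_log (by norm_num) hk2
  have hpL : (p : ℝ) * L ≤ 2 * log k := by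
    have h1 : ((2 ^ Nat.log 2 k : ℕ) : ℝ) ≤ k := by
      exact_mod_cast Nat.pow_log_le_self 2 (show k ≠ 0 by omega)
    have h2 := log_le_log (by positivity) h1
    push_cast at h2
    rw [log_pow] at h2
    rw [hp]
    push_cast
    linarith
  have hqL : (q : ℝ) * L ≤ 4 * log k := by
    rw [hq]
    push_cast
    linarith
  have hkq : k ^ 2 ≤ 2 ^ q := by
    have h1 := (Nat.lt_pow_succ_log_self (show 1 < 2 by norm_num) k).le
    calc k ^ 2 ≤ (2 ^ p) ^ 2 := Nat.pow_le_pow_left h1 2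
      _ = 2 ^ q := by rw [← pow_mul, hq, mul_comm]
  have hq1 : (2 : ℝ) ≤ q := by
    have : 2 ≤ q := by omega
    exact_mod_cast this
  set Λ := log (2 * (r + 2) : ℝ) with hΛ
  have hΛpos : 0 < Λ := log_pos (by linarith)
  set R := log (r + 1 : ℝ) with hR
  have hRL : L ≤ R := log_le_log (by norm_num) (by linarith)
  have hΛR : Λ ≤ 3 * R := by
    rw [hΛ, hR, ← log_rpow (by positivity)]
    apply log_le_log (by positivity)
    rw [show (3 : ℝ) = ((3 : ℕ) : ℝ) by norm_num, rpow_natCast]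
    have h1 : 0 ≤ ((r : ℝ) - 1) * ((r : ℝ) ^ 2 + 4 * r + 5) :=
      mul_nonneg (by linarith) (by positivity)
    nlinarith
  set x := Real.sqrt (r * Λ / (q * L)) with hx
  have hxpos : 0 < x := by
    rw [hx]
    apply sqrt_pos.2
    have : 0 < (q : ℝ) * L := by nlinarith
    positivity
  set h := ⌊x⌋₊ + 1 with hh
  have hhx : x ≤ h := by
    rw [hh]
    push_cast
    exact (Nat.lt_floor_add_one x).le
  have hhx2 : (h : ℝ) ≤ x + 1 := by
    rw [hh]
    push_cast
    have := Nat.floor_le hxpos.le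
    linarith
  have h1 := lrwOrder_le k r h q (by omega) hkq
  have h2 : (lrwOrder k r : ℝ) ≤ (2 : ℝ) ^ (r + h * q) * (2 * (r + 2)) ^ (q + r / h) := by
    exact_mod_cast h1
  have hpos : (0 : ℝ) < lrwOrder k r := by
    have := lrwOrder_pos k r hk
    exact_mod_cast this
  have h3 := log_le_log hpos h2
  rw [log_mul (by positivity) (by positivity), log_pow, log_pow, ← hL, ← hΛ] at h3
  have hdiv : ((r / h : ℕ) : ℝ) ≤ r / h := Nat.cast_div_le
  have hhpos : (0 : ℝ) < h := by linarith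
  have hqLpos : 0 < (q : ℝ) * L := by nlinarith
  set Q := Real.sqrt (r * Λ * (q * L)) with hQ
  have hxQ : x * (q * L) = Q := by
    rw [hx, hQ]
    have e1 : (r : ℝ) * Λ * (q * L) = (r * Λ / (q * L)) * ((q * L) ^ 2) := by field_simp
    rw [e1, Real.sqrt_mul (by positivity), Real.sqrt_sq hqLpos.le]
  have hrx : r * Λ / x = Q := by
    rw [div_eq_iff hxpos.ne', ← hxQ]
    have e1 : x * x = r * Λ / (q * L) := Real.mul_self_sqrt (by positivity)
    calc (r : ℝ) * Λ = (r * Λ / (q * L)) * (q * L) := by field_simp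
      _ = x * (q * L) * x := by rw [← e1]; ring
  have t1 : ((h * q : ℕ) : ℝ) * L ≤ Q + q * L := by
    push_cast
    have := mul_le_mul_of_nonneg_right hhx2 hqLpos.le
    calc (h : ℝ) * q * L = h * (q * L) := by ring
      _ ≤ (x + 1) * (q * L) := this
      _ = Q + q * L := by rw [add_mul, hxQ, one_mul]
  have t2 : ((r / h : ℕ) : ℝ) * Λ ≤ Q := by
    calc ((r / h : ℕ) : ℝ) * Λ ≤ (r / h) * Λ := mul_le_mul_of_nonneg_right hdiv hΛpos.le
      _ ≤ (r / x) * Λ := by
          apply mul_le_mul_of_nonneg_right _ hΛpos.le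
          exact div_le_div_of_nonneg_left (by positivity) hxpos hhx
      _ = r * Λ / x := by ring
      _ = Q := hrx
  have t3 : Q ≤ 4 * Real.sqrt (r * log k * R) := by
    have e1 : (4 : ℝ) = Real.sqrt 16 := by
      rw [show (16 : ℝ) = 4 ^ 2 by norm_num, Real.sqrt_sq (by norm_num)]
    rw [e1, ← Real.sqrt_mul (by norm_num), hQ]
    apply Real.sqrt_le_sqrt
    have f1 : Λ * (q * L) ≤ (3 * R) * (4 * log k) := mul_le_mul hΛR hqL hqLpos.le (by linarith)
    have f2 : (r : ℝ) * (Λ * (q * L)) ≤ r * ((3 * R) * (4 * log k)) :=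
      mul_le_mul_of_nonneg_left f1 (by linarith)
    have f3 : 0 ≤ (r : ℝ) * log k * R := by
      have : 0 ≤ log k := by linarith
      have : 0 ≤ R := by linarith
      positivity
    nlinarith
  have hqr : (q : ℝ) * Λ ≤ 18 * (log k * R) := by
    have f1 : (q : ℝ) * 0.69 ≤ 4 * log k := by nlinarith
    have f2 : (q : ℝ) ≤ 6 * log k := by linarith
    calc (q : ℝ) * Λ ≤ (6 * log k) * (3 * R) := mul_le_mul f2 hΛR hΛpos.le (by linarith)
      _ = 18 * (log k * R) := by ring
  have hql : (q : ℝ) * L ≤ 6 * (log k * R) := by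
    have f1 : 4 * log k * 1 ≤ 4 * log k * (R / 0.69) := by
      apply mul_le_mul_of_nonneg_left _ (by linarith)
      rw [le_div_iff₀ (by norm_num)]
      linarith
    have f2 : 0 ≤ log k * R := by
      apply mul_nonneg <;> linarith
    have f3 : 4 * log k * (R / 0.69) = (4 / 0.69) * (log k * R) := by ring
    have f4 : (4 / 0.69 : ℝ) ≤ 6 := by norm_num
    have f5 := mul_le_mul_of_nonneg_right f4 f2
    linarith
  have e4 : ((r + h * q : ℕ) : ℝ) * L = r * L + ((h * q : ℕ) : ℝ) * L := by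
    push_cast
    ring
  have e5 : ((q + r / h : ℕ) : ℝ) * Λ = q * Λ + ((r / h : ℕ) : ℝ) * Λ := by
    push_cast
    ring
  rw [e4, e5] at h3
  have f6 : 0 ≤ Real.sqrt (r * log k * R) := Real.sqrt_nonneg _
  linarith

/-- The lower bound for rank-width. -/
theorem rw_lower (j k r s : ℕ) (hj : 1 ≤ j) (hs : 1 ≤ s) (hr : 1 ≤ r) (hsk : s ^ j < k) :
    j * (r - 4 - (r : ℝ) ^ 2 / (2 * s)) * log 2 ≤ log (rwOrder k r) := by
  obtain ⟨hl1, hl2⟩ := log_two_bounds
  obtain ⟨i, rfl⟩ : ∃ i, j = i + 1 := ⟨j - 1, by omega⟩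
  obtain ⟨r, rfl⟩ : ∃ r', r = r' + 1 := ⟨r - 1, by omega⟩
  have hspos : (0 : ℝ) < s := by exact_mod_cast hs
  set T := (r + 1).choose 2 with hT
  set c := (1 + T) / (s + 1) + 1 with hc
  set m := r - 1 - c with hm
  have hcs : 1 + T < (s + 1) * c := by
    rw [hc]
    exact Nat.lt_mul_div_succ _ (by omega)
  have hnonneg : 0 ≤ log (rwOrder k (r + 1) : ℝ) := by
    have hk2 : 2 ≤ k := by
      have : 1 ≤ s ^ (i + 1) := Nat.one_le_pow _ _ hs
      omega
    have h1 := (lrwOrder_pos k (r + 1) hk2).trans (lrwOrder_le_rwOrder k (r + 1) (by omega))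
    apply log_nonneg
    exact_mod_cast h1
  have hcr : (c : ℝ) ≤ 2 + (r : ℝ) * (r + 1) / (2 * s) := by
    rw [hc]
    push_cast
    have h1 : (((1 + T) / (s + 1) : ℕ) : ℝ) ≤ ((1 + T : ℕ) : ℝ) / ((s + 1 : ℕ) : ℝ) := Nat.cast_div_le
    push_cast at h1
    rw [hT, choose_real] at h1
    have h2 : (1 + (r : ℝ) * (r + 1) / 2) / (s + 1) ≤ 1 + (r : ℝ) * (r + 1) / (2 * s) := by
      rw [div_le_iff₀ (by linarith)]
      have e1 : (r : ℝ) * (r + 1) / (2 * s) * s = r * (r + 1) / 2 := by field_simp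
      have e2 : 0 ≤ (r : ℝ) * (r + 1) / (2 * s) := by positivity
      nlinarith
    push_cast at h2 ⊢
    linarith
  by_cases hcase : 1 + c ≤ r
  · have hcond : (2 ^ m) ^ (s + 1) * 2 ^ (s + 1 + 1 + (r + 1).choose 2) <
        (s + 1).factorial * 2 ^ (r * (s + 1)) := by
      have h1 : (2 ^ m) ^ (s + 1) * 2 ^ (s + 1 + 1 + (r + 1).choose 2) ≤ 2 ^ (r * (s + 1)) := by
        rw [← pow_mul, ← pow_add]
        refine Nat.pow_le_pow_right (by norm_num) ?_
        rw [← hT]
        have h2 : m + 1 + c = r := by omega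
        have h3 : r * (s + 1) = m * (s + 1) + (s + 1) + (s + 1) * c := by
          rw [← h2]
          ring
        omega
      have h2 : 2 ≤ (s + 1).factorial := by
        calc 2 = (2 : ℕ).factorial := by norm_num [Nat.factorial]
          _ ≤ (s + 1).factorial := Nat.factorial_le (by omega)
      have h3 : 0 < 2 ^ (r * (s + 1)) := by positivity
      nlinarith
    obtain ⟨V, hV, hne, G, g1, g2, g3⟩ := powerR (2 ^ m) r s Nat.one_le_two_pow hcond i
    have h4 := le_rwOrder (Pool.Agent.N920.TW.NoMono.mono g2 (show s ^ (i + 1) + 1 ≤ k by omega)) g3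
    rw [g1] at h4
    have h5 : ((2 : ℝ) ^ m) ^ (i + 1) ≤ rwOrder k (r + 1) := by exact_mod_cast h4
    have h6 := log_le_log (by positivity) h5
    rw [log_pow, log_pow] at h6
    refine le_trans ?_ h6
    have h7 : (m : ℝ) = r - 1 - c := by
      have h2 : m + 1 + c = r := by omega
      have h3 : (m : ℝ) + 1 + c = r := by exact_mod_cast h2
      linarith
    have h8 : ((r + 1 : ℕ) : ℝ) - 4 - ((r + 1 : ℕ) : ℝ) ^ 2 / (2 * s) ≤ m := by
      rw [h7]
      push_cast
      have e1 : ((r : ℝ) + 1) ^ 2 / (2 * s) = (r : ℝ) * (r + 1) / (2 * s) + (r + 1) / (2 * s) := by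
        ring
      have e2 : 0 ≤ ((r : ℝ) + 1) / (2 * s) := by positivity
      linarith
    have h9 : ((i + 1 : ℕ) : ℝ) * (((r + 1 : ℕ) : ℝ) - 4 - ((r + 1 : ℕ) : ℝ) ^ 2 / (2 * s)) ≤
        ((i + 1 : ℕ) : ℝ) * m := mul_le_mul_of_nonneg_left h8 (Nat.cast_nonneg _)
    calc _ ≤ ((i + 1 : ℕ) : ℝ) * m * log 2 := mul_le_mul_of_nonneg_right h9 (by linarith)
      _ = _ := by ring
  · refine le_trans ?_ hnonneg
    have h8 : ((r + 1 : ℕ) : ℝ) - 4 - ((r + 1 : ℕ) : ℝ) ^ 2 / (2 * s) ≤ 0 := by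
      have h1 : (r : ℝ) + 1 ≤ 1 + c := by
        have : r + 1 ≤ 1 + c := by omega
        exact_mod_cast this
      push_cast
      have e1 : ((r : ℝ) + 1) ^ 2 / (2 * s) = (r : ℝ) * (r + 1) / (2 * s) + (r + 1) / (2 * s) := by
        ring
      have e2 : 0 ≤ ((r : ℝ) + 1) / (2 * s) := by positivity
      linarith
    have h9 : 0 ≤ ((i + 1 : ℕ) : ℝ) := Nat.cast_nonneg _
    have h10 := mul_nonpos_of_nonneg_of_nonpos h9 h8
    nlinarith

end Pool.Agent.N920.RW
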