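import Pool.Agent.N920.RW.Lin
import Pool.Agent.N920.RW.Base
import Pool.Agent.N920.TW.Growth

/-!
# Rank-width and linear rank-width
-/

namespace Pool.Agent.N920.RW

open Finset

open Classical

open Pool.Agent.N920.TW (NoMono types Dec ModuleWidthLE)

open Pool.Agent.Y422.TW (lex slab mem_slab slab_union lex_compl lex_cliqueFree)

attribute [-instance] instDecidableEqProd

set_option linter.unusedSectionVars false

variable {V W : Type*} [Fintype V] [Fintype W]

/-- The part of the adjacency matrix over `F_2` with rows in `S` and columns outside `S`; the other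
entries are replaced by zero. -/
noncomputable def cutMat (G : SimpleGraph V) (S : Finset V) : Matrix V V (ZMod 2) :=
  Matrix.of fun i j => if i ∈ S ∧ j ∉ S ∧ G.Adj i j then 1 else 0

/-- The cut-rank of `S`. -/
noncomputable def cutRank (G : SimpleGraph V) (S : Finset V) : ℕ := (cutMat G S).rank

/-- The linear rank-width of `G` is at most `r`. -/
def LinRankWidthLE (G : SimpleGraph V) (r : ℕ) : Prop :=
  ∃ f : V → ℕ, Function.Injective f ∧ ∀ t : ℕ, cutRank G (univ.filter (fun v => f v < t)) ≤ r

/-- `RDec G r S`: the set `S` can be built from single vertices by disjoint unions of two sets, such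
that every set on the way has cut-rank at most `r`. -/
inductive RDec (G : SimpleGraph V) (r : ℕ) : Finset V → Prop
  | single (v : V) (h : cutRank G {v} ≤ r) : RDec G r {v}
  | union (S T : Finset V) (hS : RDec G r S) (hT : RDec G r T) (hST : Disjoint S T)
      (h : cutRank G (S ∪ T) ≤ r) : RDec G r (S ∪ T)

/-- The rank-width of `G` is at most `r`. -/
def RankWidthLE (G : SimpleGraph V) (r : ℕ) : Prop := RDec G r univ

theorem adim_le_cutRank (G : SimpleGraph V) (S Z : Finset V) (hZ : ∀ u ∈ Z, u ∉ S) :
    adim G S Z ≤ cutRank G S := by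
  have h1 : adim G S Z ≤ adim G S (univ.filter (fun u => u ∉ S)) :=
    adim_mono G (subset_refl _) (fun u hu => mem_filter.2 ⟨mem_univ _, hZ u hu⟩)
  refine h1.trans ?_
  rw [cutRank, Matrix.rank_eq_finrank_span_row]
  apply Submodule.finrank_mono
  rw [dir, Submodule.span_le]
  have hrow : ∀ v ∈ S, row G (univ.filter (fun u => u ∉ S)) v ∈
      Submodule.span (ZMod 2) (Set.range (cutMat G S).row) := by
    intro v hv
    apply Submodule.subset_span
    refine ⟨v, ?_⟩
    funext u
    show (if v ∈ S ∧ u ∉ S ∧ G.Adj v u then (1 : ZMod 2) else 0) =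
      if u ∈ univ.filter (fun u => u ∉ S) ∧ G.Adj v u then 1 else 0
    simp [hv]
  rintro x ⟨v, hv, v', hv', rfl⟩
  exact Submodule.sub_mem _ (hrow v hv) (hrow v' hv')

theorem types_le (G : SimpleGraph V) (S : Finset V) : types G S ≤ 2 ^ cutRank G S := by
  set Z := univ.filter (fun u => u ∉ S) with hZ
  have h1 : (row G Z '' (S : Set V)).ncard ≤ 2 ^ cutRank G S :=
    (card_rows_le G S Z).trans (Nat.pow_le_pow_right (by norm_num)
      (adim_le_cutRank G S Z (fun u hu => (mem_filter.1 hu).2)))
  refine le_trans ?_ h1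
  rw [types, ← Set.ncard_coe_finset, coe_image]
  have h2 : (fun v => univ.filter (fun u => u ∉ S ∧ G.Adj v u)) '' (S : Set V) =
      (fun x : V → ZMod 2 => univ.filter (fun u => x u = 1)) '' (row G Z '' (S : Set V)) := by
    rw [Set.image_image]
    refine Set.image_congr (fun v _ => ?_)
    ext u
    rw [mem_filter, mem_filter]
    show _ ↔ _ ∧ (if u ∈ Z ∧ G.Adj v u then (1 : ZMod 2) else 0) = 1
    have hu : u ∈ Z ↔ u ∉ S := by
      rw [hZ, mem_filter]
      exact ⟨fun h => h.2, fun h => ⟨mem_univ _, h⟩⟩
    by_cases h3 : u ∉ S ∧ G.Adj v u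
    · rw [if_pos ⟨hu.2 h3.1, h3.2⟩]
      exact ⟨fun _ => ⟨mem_univ _, rfl⟩, fun _ => ⟨mem_univ _, h3⟩⟩
    · rw [if_neg (fun h => h3 ⟨hu.1 h.1, h.2⟩)]
      refine ⟨fun h => absurd h.2 h3, fun h => absurd h.2 (by decide)⟩
  rw [h2]
  exact Set.ncard_image_le (Set.toFinite _)

theorem RDec.toDec {G : SimpleGraph V} {r : ℕ} {S : Finset V} (h : RDec G r S) :
    Dec G (2 ^ r) S := by
  induction h with
  | single v h =>
    exact Dec.single v ((types_le G _).trans (Nat.pow_le_pow_right (by norm_num) h))
  | union S T hS hT hST h ihS ihT =>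
    exact Dec.union S T ihS ihT hST ((types_le G _).trans (Nat.pow_le_pow_right (by norm_num) h))

theorem RankWidthLE.moduleWidthLE {G : SimpleGraph V} {r : ℕ} (h : RankWidthLE G r) :
    ModuleWidthLE G (2 ^ r) := RDec.toDec h

theorem ordRank_of_lin {G : SimpleGraph V} {r : ℕ} {f : V → ℕ}
    (h : ∀ t : ℕ, cutRank G (univ.filter (fun v => f v < t)) ≤ r) : OrdRank f G univ r := by
  intro t
  refine (adim_le_cutRank G _ _ ?_).trans (h t)
  intro u hu hu'
  have h1 := (mem_filter.1 hu).2
  have h2 := (mem_filter.1 hu').2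
  omega

/-- The upper bound for linear rank-width, finite form. -/
theorem lin_upper (G : SimpleGraph V) (r h q k : ℕ) (hh : 1 ≤ h) (hk : k ^ 2 ≤ 2 ^ q)
    (hG : NoMono G k) (hr : LinRankWidthLE G r) :
    Fintype.card V ≤ 2 ^ (r + h * q) * (2 * (r + 2)) ^ (q + r / h) := by
  obtain ⟨f, hf, hr⟩ := hr
  by_contra hcon
  push Not at hcon
  have h1 := ord_upper G f hf r h hh (q + r) q r le_rfl le_rfl univ (ordRank_of_lin hr)
    (by rw [card_univ]; exact hcon.le)
  have h2 := Pool.Agent.Y422.TW.w_lt G hG.1 univ
  have h3 := Pool.Agent.Y422.TW.w_lt Gᶜ hG.2 univ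
  have h4 : Pool.Agent.Y422.TW.w G univ * Pool.Agent.Y422.TW.w Gᶜ univ < k * k :=
    Nat.mul_lt_mul'' h2 h3
  rw [sq] at hk
  omega

theorem cutRank_le {ι : Type*} [Fintype ι] (G : SimpleGraph V) (S : Finset V)
    (φ ψ : V → ι → ZMod 2)
    (h : ∀ v ∈ S, ∀ u, u ∉ S → (G.Adj v u ↔ φ v ⬝ᵥ ψ u = 1)) : cutRank G S ≤ Fintype.card ι := by
  set X : Matrix V ι (ZMod 2) := Matrix.of fun v l => if v ∈ S then φ v l else 0 with hX
  set Y : Matrix ι V (ZMod 2) := Matrix.of fun l u => if u ∉ S then ψ u l else 0 with hY
  have e : cutMat G S = X * Y := by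
    ext v u
    rw [Matrix.mul_apply]
    show (if v ∈ S ∧ u ∉ S ∧ G.Adj v u then (1 : ZMod 2) else 0) =
      ∑ l, (if v ∈ S then φ v l else 0) * (if u ∉ S then ψ u l else 0)
    by_cases hv : v ∈ S
    · by_cases hu : u ∉ S
      · have h1 := h v hv u hu
        have h2 : ∑ l, (if v ∈ S then φ v l else 0) * (if u ∉ S then ψ u l else 0) = φ v ⬝ᵥ ψ u := by
          refine sum_congr rfl (fun l _ => ?_)
          rw [if_pos hv, if_pos hu]
        rw [h2]
        by_cases h3 : G.Adj v u
        · rw [if_pos ⟨hv, hu, h3⟩, h1.1 h3]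
        · rw [if_neg (fun h => h3 h.2.2)]
          have h4 : ¬ φ v ⬝ᵥ ψ u = 1 := fun h5 => h3 (h1.2 h5)
          generalize φ v ⬝ᵥ ψ u = x at h4
          revert h4
          revert x
          decide
      · rw [if_neg (fun h => hu h.2.1)]
        simp [hu]
    · rw [if_neg (fun h => hv h.1)]
      simp [hv]
  rw [cutRank, e]
  exact (Matrix.rank_mul_le_left X Y).trans (Matrix.rank_le_card_width X)

theorem cutRank_single (G : SimpleGraph V) (v : V) : cutRank G {v} ≤ 1 := by
  have := cutRank_le (ι := Unit) G {v} (fun _ _ => 1) (fun u _ => if G.Adj v u then 1 else 0)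
    (by
      intro x hx u _
      rw [mem_singleton.1 hx]
      by_cases h : G.Adj v u
      · simp [h, dotProduct]
      · simp [h, dotProduct])
  simpa using this

/-- Linear rank-width bounds rank-width. -/
theorem LinRankWidthLE.rankWidthLE [Nonempty V] {G : SimpleGraph V} {r : ℕ} (hr1 : 1 ≤ r)
    (h : LinRankWidthLE G r) : RankWidthLE G r := by
  obtain ⟨f, hf, h⟩ := h
  have key : ∀ t : ℕ, (univ.filter (fun v => f v < t)).Nonempty →
      RDec G r (univ.filter (fun v => f v < t)) := by
    intro t
    induction t with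
    | zero =>
      rintro ⟨x, hx⟩
      exact absurd (mem_filter.1 hx).2 (by omega)
    | succ t ih =>
      intro hne
      by_cases hex : ∃ x, f x = t
      · obtain ⟨x, hx⟩ := hex
        have e : univ.filter (fun v => f v < t + 1) = univ.filter (fun v => f v < t) ∪ {x} := by
          ext v
          rw [mem_union, mem_filter, mem_filter, mem_singleton]
          constructor
          · rintro ⟨-, h1⟩
            rcases Nat.lt_or_ge (f v) t with h2 | h2
            · exact Or.inl ⟨mem_univ _, h2⟩
            · exact Or.inr (hf (by omega))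
          · rintro (⟨-, h1⟩ | rfl)
            · exact ⟨mem_univ _, by omega⟩
            · exact ⟨mem_univ _, by omega⟩
        have hsing : RDec G r {x} := RDec.single x ((cutRank_single G x).trans hr1)
        rcases (univ.filter (fun v => f v < t)).eq_empty_or_nonempty with he | hne'
        · rw [e, he, empty_union]
          exact hsing
        · have h1 := h (t + 1)
          rw [e] at h1 ⊢
          refine RDec.union _ _ (ih hne') hsing ?_ h1
          rw [disjoint_singleton_right]
          intro h2
          have := (mem_filter.1 h2).2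
          omega
      · have e : univ.filter (fun v => f v < t + 1) = univ.filter (fun v => f v < t) := by
          ext v
          rw [mem_filter, mem_filter]
          constructor
          · rintro ⟨-, h1⟩
            refine ⟨mem_univ _, ?_⟩
            have h2 : f v ≠ t := fun h3 => hex ⟨v, h3⟩
            omega
          · rintro ⟨-, h1⟩
            exact ⟨mem_univ _, by omega⟩
        rw [e] at hne ⊢
        exact ih hne
  have hbig : univ.filter (fun v => f v < univ.sup f + 1) = (univ : Finset V) := by
    rw [filter_eq_self]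
    intro v _
    have : f v ≤ univ.sup f := le_sup (mem_univ v)
    omega
  have := key (univ.sup f + 1) (by rw [hbig]; exact univ_nonempty)
  rw [hbig] at this
  exact this

theorem bil_lin {n r : ℕ} (z : Fin n → E r × E r) : LinRankWidthLE (bil z) r := by
  refine ⟨fun i => i.val, Fin.val_injective, fun t => ?_⟩
  have := cutRank_le (ι := Fin r) (bil z) (univ.filter (fun v => v.val < t)) (fun v => (z v).1)
    (fun v => (z v).2) (by
      intro v hv u hu
      have h1 := (mem_filter.1 hv).2
      have h2 : ¬ u.val < t := fun h => hu (mem_filter.2 ⟨mem_univ _, h⟩)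
      exact bil_adj z (Fin.lt_def.2 (by omega)))
  simpa using this

/-- The adjacency across the cut `S` is given by an inner product in dimension `r` plus a function
of the vertex outside. -/
def AffCut (G : SimpleGraph V) (r : ℕ) (S : Finset V) : Prop :=
  ∃ (φ ψ : V → Fin r → ZMod 2) (c : V → ZMod 2), ∀ v ∈ S, ∀ u, u ∉ S →
    (G.Adj v u ↔ φ v ⬝ᵥ ψ u + c u = 1)

theorem AffCut.cutRank_le {G : SimpleGraph V} {r : ℕ} {S : Finset V} (h : AffCut G r S) :
    cutRank G S ≤ r + 1 := by
  obtain ⟨φ, ψ, c, h⟩ := h
  have := Pool.Agent.N920.RW.cutRank_le (ι := Option (Fin r)) G S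
    (fun v l => l.elim 1 (φ v)) (fun u l => l.elim (c u) (ψ u)) (by
      intro v hv u hu
      rw [h v hv u hu, dotProduct, dotProduct, Fintype.sum_option]
      simp [add_comm])
  simpa using this

/-- Decompositions with affine cuts. -/
inductive ADec (G : SimpleGraph V) (r : ℕ) : Finset V → Prop
  | single (v : V) : ADec G r {v}
  | union (S T : Finset V) (hS : ADec G r S) (hT : ADec G r T) (hST : Disjoint S T)
      (h : AffCut G r (S ∪ T)) : ADec G r (S ∪ T)

theorem ADec.toRDec {G : SimpleGraph V} {r : ℕ} {S : Finset V} (h : ADec G r S) :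
    RDec G (r + 1) S := by
  induction h with
  | single v => exact RDec.single v ((cutRank_single G v).trans (by omega))
  | union S T hS hT hST h ihS ihT => exact RDec.union S T ihS ihT hST h.cutRank_le

theorem aff_slab (G : SimpleGraph V) (H : SimpleGraph W) {r : ℕ} (v : V) {A : Finset W}
    (h : AffCut H r A) : AffCut (lex G H) r (slab v A) := by
  obtain ⟨φ, ψ, c, h⟩ := h
  refine ⟨fun p => φ p.2, fun u => if u.1 = v then ψ u.2 else 0,
    fun u => if u.1 = v then c u.2 else if G.Adj v u.1 then 1 else 0, ?_⟩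
  intro x hx u hu
  obtain ⟨hx1, hx2⟩ := mem_slab.1 hx
  show (G.Adj x.1 u.1 ∨ (x.1 = u.1 ∧ H.Adj x.2 u.2)) ↔ _
  by_cases huv : u.1 = v
  · have hu2 : u.2 ∉ A := fun h2 => hu (mem_slab.2 ⟨huv, h2⟩)
    simp only [if_pos huv]
    rw [← h x.2 hx2 u.2 hu2, hx1, huv]
    constructor
    · rintro (h1 | ⟨-, h1⟩)
      · exact absurd h1 (G.loopless.irrefl _)
      · exact h1
    · intro h1
      exact Or.inr ⟨rfl, h1⟩
  · simp only [if_neg huv]
    rw [hx1, dotProduct_zero, zero_add]
    by_cases h3 : G.Adj v u.1
    · simp [h3]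
    · simp only [h3, if_false]
      constructor
      · rintro (h4 | ⟨h4, -⟩)
        · exact absurd h4 (by simp)
        · exact absurd h4.symm huv
      · intro h4
        exact absurd h4 (by decide)

theorem aff_prod (G : SimpleGraph V) (H : SimpleGraph W) {r : ℕ} {S : Finset V}
    (h : AffCut G r S) : AffCut (lex G H) r (S ×ˢ (univ : Finset W)) := by
  obtain ⟨φ, ψ, c, h⟩ := h
  refine ⟨fun p => φ p.1, fun u => ψ u.1, fun u => c u.1, ?_⟩
  intro x hx u hu
  have hx1 := (mem_product.1 hx).1
  have hu1 : u.1 ∉ S := fun h2 => hu (mem_product.2 ⟨h2, mem_univ _⟩)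
  show (G.Adj x.1 u.1 ∨ (x.1 = u.1 ∧ H.Adj x.2 u.2)) ↔ _
  rw [← h x.1 hx1 u.1 hu1]
  constructor
  · rintro (h1 | ⟨h1, -⟩)
    · exact h1
    · exact absurd (h1 ▸ hx1) hu1
  · exact Or.inl

theorem adec_slab (G : SimpleGraph V) (H : SimpleGraph W) {r : ℕ} (v : V) {A : Finset W}
    (h : ADec H r A) : ADec (lex G H) r (slab v A) := by
  induction h with
  | single a =>
    have e : slab v {a} = {(v, a)} := by
      ext x
      rw [mem_slab, mem_singleton, mem_singleton, Prod.ext_iff]
    rw [e]
    exact ADec.single _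
  | union S T hS hT hST hh ihS ihT =>
    have h1 := aff_slab G H v hh
    rw [slab_union] at h1 ⊢
    refine ADec.union _ _ ihS ihT ?_ h1
    rw [disjoint_left]
    intro x hx hx'
    exact disjoint_left.1 hST (mem_slab.1 hx).2 (mem_slab.1 hx').2

theorem bil_aff {n r : ℕ} (z : Fin n → E r × E r) (t : ℕ) :
    AffCut (bil z) r (univ.filter (fun v => v.val < t)) := by
  refine ⟨fun v => (z v).1, fun v => (z v).2, 0, ?_⟩
  intro v hv u hu
  have h1 := (mem_filter.1 hv).2
  have h2 : ¬ u.val < t := fun h => hu (mem_filter.2 ⟨mem_univ _, h⟩)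
  rw [bil_adj z (Fin.lt_def.2 (by omega)), Pi.zero_apply, add_zero]

theorem lex_bil {n r : ℕ} (hn : 1 ≤ n) (z : Fin n → E r × E r) (H : SimpleGraph W)
    (hH : ADec H r univ) : ADec (lex (bil z) H) r univ := by
  have key : ∀ t : ℕ, 1 ≤ t → t ≤ n →
      ADec (lex (bil z) H) r ((univ.filter (fun v : Fin n => v.val < t)) ×ˢ (univ : Finset W)) := by
    intro t ht
    induction t, ht using Nat.le_induction with
    | base =>
      intro _
      have e : (univ.filter (fun v : Fin n => v.val < 1)) ×ˢ (univ : Finset W) =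
          slab (⟨0, by omega⟩ : Fin n) univ := by
        ext x
        rw [mem_product, mem_slab, mem_filter, Fin.ext_iff]
        simp only [mem_univ, true_and, and_true]
        omega
      rw [e]
      exact adec_slab _ _ _ hH
    | succ t ht ih =>
      intro htn
      have e : (univ.filter (fun v : Fin n => v.val < t + 1)) ×ˢ (univ : Finset W) =
          (univ.filter (fun v : Fin n => v.val < t)) ×ˢ (univ : Finset W) ∪
            slab (⟨t, by omega⟩ : Fin n) univ := by
        ext x
        rw [mem_union, mem_product, mem_product, mem_slab, mem_filter, mem_filter, Fin.ext_iff]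
        simp only [mem_univ, true_and, and_true]
        omega
      have h1 := aff_prod (bil z) H (bil_aff z (t + 1))
      rw [e] at h1 ⊢
      refine ADec.union _ _ (ih (by omega)) (adec_slab _ _ _ hH) ?_ h1
      rw [disjoint_left]
      intro x hx hx'
      have h2 := (mem_filter.1 (mem_product.1 hx).1).2
      have h3 := (mem_slab.1 hx').1
      rw [h3] at h2
      exact lt_irrefl _ h2
  have h := key n hn le_rfl
  have e : (univ.filter (fun v : Fin n => v.val < n)) ×ˢ (univ : Finset W) = univ := by
    ext x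
    rw [mem_product, mem_filter]
    simp
  rw [e] at h
  exact h

theorem ADec.add {G : SimpleGraph V} {r : ℕ} (S S' : Finset V) (x : V) (hS : ADec G r S)
    (hx : x ∉ S) (h : ∀ v, v ∈ S' ↔ v ∈ S ∨ v = x) (hcut : AffCut G r S') : ADec G r S' := by
  have e : S' = S ∪ {x} := by
    ext v
    rw [mem_union, mem_singleton]
    exact h v
  rw [e] at hcut ⊢
  refine ADec.union _ _ hS (ADec.single x) ?_ hcut
  rw [disjoint_singleton_right]
  exact hx

theorem bil_adec {n r : ℕ} (hn : 1 ≤ n) (z : Fin n → E r × E r) : ADec (bil z) r univ := by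
  have key : ∀ t : ℕ, 1 ≤ t → t ≤ n →
      ADec (bil z) r (univ.filter (fun v : Fin n => v.val < t)) := by
    intro t ht
    induction t, ht using Nat.le_induction with
    | base =>
      intro _
      have e : univ.filter (fun v : Fin n => v.val < 1) = {(⟨0, by omega⟩ : Fin n)} := by
        ext x
        rw [mem_filter, mem_singleton, Fin.ext_iff]
        simp only [mem_univ, true_and]
        omega
      rw [e]
      exact ADec.single _
    | succ t ht ih =>
      intro htn
      have htn' : t < n := by omega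
      refine ADec.add (univ.filter (fun v : Fin n => v.val < t)) _ ⟨t, htn'⟩ (ih (by omega)) ?_ ?_
        (bil_aff z (t + 1))
      · intro h2
        exact lt_irrefl _ (mem_filter.1 h2).2
      · intro v
        rw [mem_filter, mem_filter, Fin.ext_iff]
        simp only [mem_univ, true_and]
        omega
  have h3 := key n hn le_rfl
  have e : univ.filter (fun v : Fin n => v.val < n) = univ := by
    ext x
    simp
  rw [e] at h3
  exact h3

/-- Lexicographic powers of random bilinear colourings. -/
theorem powerR (n r s : ℕ) (hn : 1 ≤ n)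
    (h : n ^ (s + 1) * 2 ^ (s + 1 + 1 + (r + 1).choose 2) < (s + 1).factorial * 2 ^ (r * (s + 1)))
    (j : ℕ) :
    ∃ (V : Type) (_ : Fintype V) (_ : Nonempty V) (G : SimpleGraph V),
      Fintype.card V = n ^ (j + 1) ∧ NoMono G (s ^ (j + 1) + 1) ∧ RankWidthLE G (r + 1) := by
  obtain ⟨z, h1, h2⟩ := exists_bil n r (s + 1) h
  have hne : Nonempty (Fin n) := ⟨⟨0, by omega⟩⟩
  have main : ∀ j : ℕ, ∃ (V : Type) (_ : Fintype V) (_ : Nonempty V) (G : SimpleGraph V),
      Fintype.card V = n ^ (j + 1) ∧ NoMono G (s ^ (j + 1) + 1) ∧ ADec G r univ := by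
    intro j
    induction j with
    | zero =>
      refine ⟨Fin n, inferInstance, hne, bil z, by simp, ⟨?_, ?_⟩, bil_adec hn z⟩
      · simpa using h1
      · simpa using h2
    | succ j ih =>
      obtain ⟨V, hV, hVne, G, g1, ⟨g2, g3⟩, g4⟩ := ih
      refine ⟨Fin n × V, inferInstance, inferInstance, lex (bil z) G, ?_, ⟨?_, ?_⟩,
        lex_bil hn z G g4⟩
      · rw [Fintype.card_prod, Fintype.card_fin, g1, pow_succ n (j + 1)]
        ring
      · have := lex_cliqueFree (bil z) G (a := s) (b := s ^ (j + 1)) h1 g2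
        rw [pow_succ s (j + 1), mul_comm]
        exact this
      · rw [lex_compl]
        have := lex_cliqueFree (bil z)ᶜ Gᶜ (a := s) (b := s ^ (j + 1)) h2 g3
        rw [pow_succ s (j + 1), mul_comm]
        exact this
  obtain ⟨V, hV, hVne, G, g1, g2, g3⟩ := main j
  exact ⟨V, hV, hVne, G, g1, g2, g3.toRDec⟩

end Pool.Agent.N920.RW
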